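import Mathlib

/-!
# Periods of Hodge structures with multiplication by abelian fields: definitions (helper88)

The cohomology group `H^m(X, ℚ)` is the dual of the homology `B = H_m(X(ℂ), ℚ)`, and `H^m(X, ℂ)` is the
space of the `ℚ`-linear maps `B → ℂ` (the period maps `γ ↦ ∫_γ ω`).
-/

set_option autoImplicit false

namespace Pool.Agent.Hx88.GD

open Module Polynomial TensorProduct

section linear

variable {B B' : Type} [AddCommGroup B] [Module ℚ B] [AddCommGroup B'] [Module ℚ B']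

/-- The complex conjugate of a cohomology class. -/
noncomputable def conj (ω : B →ₗ[ℚ] ℂ) : B →ₗ[ℚ] ℂ :=
  (Complex.conjAe.toLinearMap.restrictScalars ℚ).comp ω

/-- The product `ω ⊠ η` of two cohomology classes: `x ⊗ y ↦ ω x * η y`. -/
noncomputable def ext (ω : B →ₗ[ℚ] ℂ) (η : B' →ₗ[ℚ] ℂ) : B ⊗[ℚ] B' →ₗ[ℚ] ℂ :=
  (LinearMap.mul' ℚ ℂ).comp (TensorProduct.map ω η)

end linear

/-- The complex numbers `x` and `y` are equal up to an algebraic number different from zero. -/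
def Sim (x y : ℂ) : Prop := ∃ a : ℂ, a ≠ 0 ∧ IsAlgebraic ℚ a ∧ x = a * y

/-- The data: smooth projective varieties over the field of algebraic numbers, their homology, Hodge
decomposition and algebraic de Rham cohomology, and the products of varieties. -/
structure Data where
  /-- the smooth projective varieties over the algebraic numbers -/
  Var : Type
  /-- the homology groups `H_m(X(ℂ), ℚ)` -/
  B : Var → ℕ → Type
  [grp : ∀ X m, AddCommGroup (B X m)]
  [mod : ∀ X m, Module ℚ (B X m)]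
  /-- the subspace `H^{p, m - p}` of `H^m(X, ℂ)` -/
  hodge : ∀ (X : Var) (m : ℕ), ℕ → Submodule ℂ (B X m →ₗ[ℚ] ℂ)
  /-- the image of the algebraic de Rham cohomology (over the algebraic numbers) in `H^m(X, ℂ)` -/
  dR : ∀ (X : Var) (m : ℕ), Submodule (algebraicClosure ℚ ℂ) (B X m →ₗ[ℚ] ℂ)
  /-- the product of two varieties -/
  prod : Var → Var → Var
  /-- the Künneth component `H_{m + n}(X × Y) → H_m(X) ⊗ H_n(Y)` -/
  kun : ∀ (X Y : Var) (m n : ℕ), B (prod X Y) (m + n) →ₗ[ℚ] B X m ⊗[ℚ] B Y n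

attribute [instance] Data.grp Data.mod

/-- `e^{2 π i / d}` -/
noncomputable def zeta (d : ℕ) : ℂ := Complex.exp (2 * Real.pi * Complex.I / d)

/-- The cyclotomic field `ℚ(μ_d)`. -/
noncomputable def Cyc (d : ℕ) : IntermediateField ℚ ℂ := IntermediateField.adjoin ℚ {zeta d}

/-- `F` is an abelian number field (by the theorem of Kronecker and Weber, these are the subfields of
the cyclotomic fields). -/
def IsAbelian (F : IntermediateField ℚ ℂ) : Prop := ∃ d : ℕ, 0 < d ∧ F ≤ Cyc d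

/-- `F` is not a subfield of the field of the real numbers. -/
def IsImaginary (F : IntermediateField ℚ ℂ) : Prop := ∃ x ∈ F, (starRingEnd ℂ) x ≠ x

/-- The conductor of `F`. -/
noncomputable def cond (F : IntermediateField ℚ ℂ) : ℕ := sInf {d : ℕ | 0 < d ∧ F ≤ Cyc d}

variable {F : IntermediateField ℚ ℂ}

/-- The complex conjugate of an embedding. -/
noncomputable def conjE (σ : F →ₐ[ℚ] ℂ) : F →ₐ[ℚ] ℂ :=
  (Complex.conjAe.toAlgHom.restrictScalars ℚ).comp σ

/-- `σ = φ(lam)`: the embedding `σ` of the subfield `F` of `ℚ(μ_d)` is induced by `ζ ↦ ζ ^ lam`. -/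
def Rel (d : ℕ) (lam : (ZMod d)ˣ) (σ : F →ₐ[ℚ] ℂ) : Prop :=
  ∀ (x : F) (P : ℚ[X]), (x : ℂ) = aeval (zeta d) P →
    σ x = aeval (zeta d ^ (lam : ZMod d).val) P

/-- The condition on `ε`: `d p(λ) = ∑_{0 < a < d} ε(a) ⟨λ a⟩`. -/
def IsEps (d : ℕ) (p : (F →ₐ[ℚ] ℂ) → ℕ) (ε : ZMod d → ℚ) : Prop :=
  ∀ (lam : (ZMod d)ˣ) (σ : F →ₐ[ℚ] ℂ), Rel d lam σ →
    (d : ℚ) * p σ = ∑ a ∈ Finset.Ioo 0 d, ε a * (((lam : ZMod d) * a).val : ℚ)

/-- The product `∏_{0 < a < d} Γ(1 - a / d) ^ ε(a λ⁻¹)`. -/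
noncomputable def gammaProd (d : ℕ) (ε : ZMod d → ℚ) (lam : (ZMod d)ˣ) : ℝ :=
  ∏ a ∈ Finset.Ioo 0 d, Real.Gamma (1 - a / d) ^ (ε (a * ((lam⁻¹ : (ZMod d)ˣ) : ZMod d)) : ℝ)

/-- The class `σ ∘ t` in `H^m(X, ℂ)`, for a `ℚ`-linear map `t` from the homology to `F`. -/
noncomputable def eig {B : Type} [AddCommGroup B] [Module ℚ B] (t : B →ₗ[ℚ] F) (σ : F →ₐ[ℚ] ℂ) :
    B →ₗ[ℚ] ℂ := σ.toLinearMap.comp t

namespace Data

variable (T : Data) {X Y : T.Var} {m n : ℕ}

/-- The cohomology group `H^m(X, ℂ)`. -/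
abbrev H (T : Data) (X : T.Var) (m : ℕ) : Type := T.B X m →ₗ[ℚ] ℂ

/-- `ω` is an element of `H^{p, m - p}`. -/
def InHodge (p : ℕ) (ω : T.H X m) : Prop := ω ∈ T.hodge X m p

/-- `ω` is an element of the algebraic de Rham cohomology. -/
def InDR (ω : T.H X m) : Prop := ω ∈ T.dR X m

/-- The multiple `c ω`. -/
noncomputable def mulC (c : ℂ) (ω : T.H X m) : T.H X m := c • ω

/-- The exterior product of two cohomology classes. -/
noncomputable def cross (ω : T.H X m) (η : T.H Y n) : T.H (T.prod X Y) (m + n) :=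
  (ext ω η).comp (T.kun X Y m n)

/-- The class `σ ∘ t` in `H^m(X, ℂ)`, for a `ℚ`-linear map `t` from the homology to `F`. -/
noncomputable def eigC (t : T.B X m →ₗ[ℚ] F) (σ : F →ₐ[ℚ] ℂ) : T.H X m := eig t σ

/-- `t` defines an admissible triple `(H, F, ι)` with `p(σ) = p σ`, where `H` is a subspace of
`H^m(X, ℚ)`. For such a triple the dual space of `H` is a quotient of the homology and a vector space of
dimension one over `F`, so there is a surjective `ℚ`-linear map `t` from the homology to `F`, unique up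
to multiplication by an element of `F`; `H` is the space of the forms `Tr(f t)`, `f ∈ F`, and the line
`H_σ` is spanned by `σ ∘ t`. -/
structure IsLine (t : T.B X m →ₗ[ℚ] F) (p : (F →ₐ[ℚ] ℂ) → ℕ) : Prop where
  /-- `t` is surjective -/
  surj : Function.Surjective t
  /-- the line `H_σ` is contained in `H^{p(σ), m - p(σ)}` -/
  hodge : ∀ σ, T.InHodge (p σ) (T.eigC t σ)
  /-- the line `H_σ` is spanned by an element of the algebraic de Rham cohomology -/
  dR : ∀ σ, ∃ c : ℂ, c ≠ 0 ∧ T.InDR (T.mulC c (T.eigC t σ))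

/-- The period `P_σ(H)` is `x` up to algebraic numbers: this is the value at `γ` of an element `ω` of the
algebraic de Rham cohomology which spans the line `H_σ`, where `γ` is not zero on `H`. -/
def PeriodIs (t : T.B X m →ₗ[ℚ] F) (σ : F →ₐ[ℚ] ℂ) (x : ℂ) : Prop :=
  ∀ ω : T.H X m, T.InDR ω → (∃ c : ℂ, c ≠ 0 ∧ ω = T.mulC c (T.eigC t σ)) →
    ∀ γ, t γ ≠ 0 → Sim (ω γ) x

/-- The relation of Gross and Deligne for the admissible triple given by `t`. -/
def Holds (t : T.B X m →ₗ[ℚ] F) (p : (F →ₐ[ℚ] ℂ) → ℕ) : Prop :=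
  ∀ ε : ZMod (cond F) → ℚ, IsEps (cond F) p ε →
    ∀ (lam : (ZMod (cond F))ˣ) (σ : F →ₐ[ℚ] ℂ), Rel (cond F) lam σ →
      T.PeriodIs t σ (gammaProd (cond F) ε lam)

/-- The conjecture of Gross and Deligne for the field `F` (and all varieties). -/
def GrossDeligne (F : IntermediateField ℚ ℂ) : Prop :=
  ∀ (X : T.Var) (m : ℕ) (t : T.B X m →ₗ[ℚ] F) (p : (F →ₐ[ℚ] ℂ) → ℕ), T.IsLine t p → T.Holds t p

/-- For all the admissible triples `(H, F, ι)` for which `H` consists of Hodge classes, of type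
`(c, c)`, the periods are `(2 π i) ^ c` up to algebraic numbers. -/
def HodgeLines (F : IntermediateField ℚ ℂ) : Prop :=
  ∀ (X : T.Var) (m c : ℕ) (t : T.B X m →ₗ[ℚ] F), T.IsLine t (fun _ => c) →
    ∀ σ, T.PeriodIs t σ ((2 * Real.pi * Complex.I) ^ c)

/-- The Hodge decomposition. -/
structure HodgeAx : Prop where
  hodge_disjoint : ∀ (X : T.Var) (m p q : ℕ) (ω : T.H X m),
    T.InHodge p ω → T.InHodge q ω → p ≠ q → ω = 0
  hodge_le : ∀ (X : T.Var) (m p : ℕ) (ω : T.H X m), T.InHodge p ω → m < p → ω = 0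
  hodge_conj : ∀ (X : T.Var) (m p : ℕ) (ω : T.H X m), T.InHodge p ω → T.InHodge (m - p) (conj ω)

/-- The Künneth formula. -/
structure KunAx : Prop where
  kun_surj : ∀ X Y m n, Function.Surjective (T.kun X Y m n)
  kun_hodge : ∀ (X Y : T.Var) (m n p q : ℕ) (ω : T.H X m) (η : T.H Y n),
    T.InHodge p ω → T.InHodge q η → T.InHodge (p + q) (T.cross ω η)
  kun_dR : ∀ (X Y : T.Var) (m n : ℕ) (ω : T.H X m) (η : T.H Y n),
    T.InDR ω → T.InDR η → T.InDR (T.cross ω η)

/-- `Θ` is a polarization of `H^m(X, ℚ)` with values in `ℚ(-m)`: the bilinear form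
`(ω, η) ↦ (ω ⊠ η)(Θ)`. -/
structure IsPol (Θ : T.B X m ⊗[ℚ] T.B X m) : Prop where
  algebraic : ∀ ω η : T.H X m, T.InDR ω → T.InDR η → ∃ a : ℂ, IsAlgebraic ℚ a ∧
    ext ω η Θ = a * (2 * Real.pi * Complex.I) ^ m
  nondegenerate : ∀ (p : ℕ) (ω : T.H X m), T.InHodge p ω → ω ≠ 0 → ext ω (conj ω) Θ ≠ 0

/-- Abelian varieties with complex multiplication: for the imaginary abelian field `F` and a function
`p` with `p(σ) + p(σ̄) = m > 0` there is a product of abelian varieties with complex multiplication by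
`F` with an admissible triple in degree `m` with the function `p` (the theorem of Shimura and
Taniyama), for which the relation holds (the theorem of Anderson, and of Koblitz and Ogus). -/
def HasCM (F : IntermediateField ℚ ℂ) : Prop :=
  ∀ m : ℕ, 0 < m → ∀ p : (F →ₐ[ℚ] ℂ) → ℕ, (∀ σ, p σ + p (conjE σ) = m) →
    ∃ (A : T.Var) (t : T.B A m →ₗ[ℚ] F), T.IsLine t p ∧ T.Holds t p

/-- The known theorems on the data which are used. -/
structure IsTheory : Prop extends T.HodgeAx, T.KunAx where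
  /-- a polarization -/
  pol : ∀ (X : T.Var) (m : ℕ), ∃ Θ : T.B X m ⊗[ℚ] T.B X m, T.IsPol Θ
  /-- abelian varieties with complex multiplication -/
  cm : ∀ F : IntermediateField ℚ ℂ, IsAbelian F → IsImaginary F → T.HasCM F

end Data

end Pool.Agent.Hx88.GD
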