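import Pool.Agent.Hx88.GD.Gam

/-!
# A line with an explicit function `ε` (helper88)
-/

set_option autoImplicit false
set_option linter.unusedSectionVars false

namespace Pool.Agent.Hx88.GD

open Module

variable {d : ℕ} [NeZero d] {F : IntermediateField ℚ ℂ}

/-- `1` if `2 μ ≥ d` and `0` otherwise -/
def psi (μ : (ZMod d)ˣ) : ℕ := if d ≤ 2 * (μ : ZMod d).val then 1 else 0

theorem two_ne (hd : 2 < d) (μ : (ZMod d)ˣ) : (2 : ZMod d) * μ ≠ 0 := by
  intro h
  have h1 : (2 : ZMod d) = 0 := by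
    have := congrArg (fun x => x * ((μ⁻¹ : (ZMod d)ˣ) : ZMod d)) h
    simpa [mul_assoc] using this
  have h2 : ((2 : ℕ) : ZMod d) = 0 := by exact_mod_cast h1
  rw [ZMod.natCast_eq_zero_iff] at h2
  exact absurd (Nat.le_of_dvd two_pos h2) (by omega)

theorem val_two (μ : (ZMod d)ˣ) : (2 * (μ : ZMod d).val : ℚ) - ((2 : ZMod d) * μ).val = d * psi μ := by
  have h1 : ((2 : ZMod d) * μ).val = (2 * (μ : ZMod d).val) % d := by
    have h2 : (2 : ZMod d) * μ = ((2 * (μ : ZMod d).val : ℕ) : ZMod d) := by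
      push_cast
      rw [ZMod.natCast_zmod_val]
    rw [h2, ZMod.val_natCast]
  have hlt : (μ : ZMod d).val < d := ZMod.val_lt _
  rw [h1, psi]
  split_ifs with h
  · have h3 : (2 * (μ : ZMod d).val) % d = 2 * (μ : ZMod d).val - d := by
      rw [Nat.mod_eq_sub_mod h, Nat.mod_eq_of_lt (by omega)]
    rw [h3, Nat.cast_sub h]
    push_cast
    ring
  · rw [Nat.mod_eq_of_lt (by omega)]
    push_cast
    ring

theorem psi_neg (hd : 2 < d) (μ : (ZMod d)ˣ) : psi μ + psi (-μ) = 1 := by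
  have : Fact (1 < d) := ⟨by omega⟩
  have h0 : (μ : ZMod d) ≠ 0 := μ.ne_zero
  have h1 : ((-μ : (ZMod d)ˣ) : ZMod d).val = d - (μ : ZMod d).val := by
    rw [Units.val_neg, ZMod.neg_val, if_neg h0]
  have hlt : (μ : ZMod d).val < d := ZMod.val_lt _
  have hne : 2 * (μ : ZMod d).val ≠ d := by
    intro h2
    apply two_ne hd μ
    have h3 : (2 : ZMod d) * μ = ((2 * (μ : ZMod d).val : ℕ) : ZMod d) := by
      push_cast
      rw [ZMod.natCast_zmod_val]
    rw [h3, h2, ZMod.natCast_self]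
  rw [psi, psi, h1]
  split_ifs <;> omega

open Classical in
/-- the units which induce the embedding `σ` -/
noncomputable def rset (d : ℕ) [NeZero d] (σ : F →ₐ[ℚ] ℂ) : Finset (ZMod d)ˣ :=
  Finset.univ.filter fun μ => Rel d μ σ

theorem mem_rset {σ : F →ₐ[ℚ] ℂ} {μ : (ZMod d)ˣ} : μ ∈ rset d σ ↔ Rel d μ σ := by
  simp [rset]

theorem conjE_conjE (σ : F →ₐ[ℚ] ℂ) : conjE (conjE σ) = σ := by
  refine AlgHom.ext fun x => ?_
  show (starRingEnd ℂ) ((starRingEnd ℂ) (σ x)) = σ x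
  exact Complex.conj_conj _

/-- the function `p` -/
noncomputable def p0 (d : ℕ) [NeZero d] (σ : F →ₐ[ℚ] ℂ) : ℕ := ∑ μ ∈ rset d σ, psi μ

theorem sum_rset (hF : F ≤ Cyc d) {σ : F →ₐ[ℚ] ℂ} {lam : (ZMod d)ˣ} (h : Rel d lam σ)
    {M : Type*} [AddCommMonoid M] (f : (ZMod d)ˣ → M) :
    ∑ μ ∈ rset d σ, f μ = ∑ ν ∈ rset d F.val, f (lam * ν) := by
  have hd : 0 < d := Nat.pos_of_ne_zero (NeZero.ne d)
  symm
  refine Finset.sum_bij (fun ν _ => lam * ν) ?_ ?_ ?_ ?_
  · intro ν hν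
    rw [mem_rset] at hν ⊢
    exact rel_mul hd hF h hν
  · intro ν _ ν' _ hh
    exact mul_left_cancel hh
  · intro μ hμ
    rw [mem_rset] at hμ
    exact ⟨lam⁻¹ * μ, mem_rset.2 (rel_div hd hF h hμ), mul_inv_cancel_left lam μ⟩
  · intro ν _
    rfl

theorem p0_conj (hd : 2 < d) (hF : F ≤ Cyc d) (σ : F →ₐ[ℚ] ℂ) :
    p0 d σ + p0 d (conjE σ) = (rset d F.val).card := by
  have hd0 : 0 < d := by omega
  have h1 : p0 d (conjE σ) = ∑ μ ∈ rset d σ, psi (-μ) := by
    rw [p0]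
    symm
    refine Finset.sum_bij (fun μ _ => -μ) ?_ ?_ ?_ ?_
    · intro μ hμ
      rw [mem_rset] at hμ ⊢
      exact rel_conj hd0 hμ
    · intro μ _ μ' _ hh
      exact neg_injective hh
    · intro μ hμ
      rw [mem_rset] at hμ
      have h2 := rel_conj hd0 hμ
      rw [conjE_conjE] at h2
      exact ⟨-μ, mem_rset.2 h2, neg_neg μ⟩
    · intro μ _
      rfl
  rw [h1, p0, ← Finset.sum_add_distrib, Finset.sum_congr rfl fun μ _ => psi_neg hd μ,
    Finset.sum_const, smul_eq_mul, mul_one]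
  obtain ⟨lam, hlam⟩ := exists_rel hd0 hF σ
  have h2 := sum_rset hF hlam fun _ => 1
  rw [Finset.sum_const, Finset.sum_const, smul_eq_mul, smul_eq_mul, mul_one, mul_one] at h2
  exact h2

open Classical in
/-- the function `ε` -/
noncomputable def e0 (F : IntermediateField ℚ ℂ) (d : ℕ) [NeZero d] (a : ZMod d) : ℚ :=
  ∑ ν ∈ rset d F.val, ((if a = ν then 2 else 0) - if a = 2 * ν then 1 else 0)

theorem isEps_e0 (hd : 2 < d) (hF : F ≤ Cyc d) : IsEps d (p0 (F := F) d) (e0 F d) := by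
  classical
  have : Fact (1 < d) := ⟨by omega⟩
  have hd0 : 0 < d := by omega
  intro lam σ hσ
  have h1 : ∑ a ∈ Finset.Ioo 0 d, e0 F d a * (((lam : ZMod d) * a).val : ℚ) =
      ∑ ν ∈ rset d F.val, (2 * ((lam * ν : (ZMod d)ˣ) : ZMod d).val -
        (((2 : ZMod d) * ((lam * ν : (ZMod d)ˣ) : ZMod d)).val : ℚ)) := by
    simp_rw [e0, Finset.sum_mul]
    rw [Finset.sum_comm]
    refine Finset.sum_congr rfl fun ν _ => ?_
    have h2 : ∀ a : ℕ, ((if (a : ZMod d) = ν then (2 : ℚ) else 0) -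
        if (a : ZMod d) = 2 * ν then 1 else 0) * (((lam : ZMod d) * a).val : ℚ) =
        (if (a : ZMod d) = ν then 2 * (((lam * ν : (ZMod d)ˣ) : ZMod d).val : ℚ) else 0) -
        (if (a : ZMod d) = 2 * ν then
          (((2 : ZMod d) * ((lam * ν : (ZMod d)ˣ) : ZMod d)).val : ℚ) else 0) := by
      intro a
      rw [sub_mul]
      congr 1
      · split_ifs with h
        · rw [h]
          push_cast
          rfl
        · rw [zero_mul]
      · split_ifs with h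
        · rw [h, one_mul]
          push_cast
          rw [mul_left_comm]
        · rw [zero_mul]
    simp_rw [h2]
    rw [Finset.sum_sub_distrib,
      sum_indQ hd0 ν.ne_zero fun _ => 2 * (((lam * ν : (ZMod d)ˣ) : ZMod d).val : ℚ),
      sum_indQ hd0 (two_ne hd ν) fun _ =>
        (((2 : ZMod d) * ((lam * ν : (ZMod d)ˣ) : ZMod d)).val : ℚ)]
  rw [h1, ← sum_rset hF hσ fun μ : (ZMod d)ˣ => (2 * (μ : ZMod d).val -
        (((2 : ZMod d) * (μ : ZMod d)).val : ℚ)), Finset.sum_congr rfl fun μ _ => val_two μ,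
    ← Finset.mul_sum, p0]
  push_cast
  rfl

end Pool.Agent.Hx88.GD
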