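import Pool.Agent.Hx88.GD.Lines
/-!
# The fixed fields of subgroups with cyclic quotient (helper88)
-/

set_option autoImplicit false

namespace Pool.Agent.Hx88.GD

open Module

theorem cyc_fixed {K L : Type} [Field K] [Field L] [Algebra K L] [IsGalois K L]
    [FiniteDimensional K L] (N : Subgroup (L ≃ₐ[K] L)) [N.Normal] (hN : IsCyclic ((L ≃ₐ[K] L) ⧸ N)) :
    IsCyclic ((IntermediateField.fixedField N) ≃ₐ[K] (IntermediateField.fixedField N)) :=
  isCyclic_of_surjective (IsGalois.normalAutEquivQuotient N).toMonoidHom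
        (IsGalois.normalAutEquivQuotient N).surjective

theorem cyc_ring {E F' : Type} [Field E] [Field F'] {inst : Algebra ℚ E}
    (h : IsCyclic (E ≃ₐ[ℚ] E)) (e : E ≃+* F') : IsCyclic (F' ≃+* F') := by
  let f : (E ≃ₐ[ℚ] E) →* (F' ≃+* F') :=
    { toFun := fun s => (e.symm.trans s.toRingEquiv).trans e
      map_one' := by
        apply RingEquiv.ext
        intro x
        show e (e.symm x) = x
        exact e.apply_symm_apply x
      map_mul' := by
        intro s t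
        apply RingEquiv.ext
        intro x
        show e (s (t (e.symm x))) = e (s (e.symm (e (t (e.symm x)))))
        rw [e.symm_apply_apply] }
  have hf : Function.Surjective f := by
    intro g
    let s₀ : E ≃+* E := (e.trans g).trans e.symm
    have hs : ∀ r : ℚ, s₀ (algebraMap ℚ E r) = algebraMap ℚ E r := by
      intro r
      exact congrFun (congrArg DFunLike.coe
        (Subsingleton.elim ((s₀ : E →+* E).comp (algebraMap ℚ E)) (algebraMap ℚ E))) r
    refine ⟨AlgEquiv.ofRingEquiv (f := s₀) hs, ?_⟩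
    apply RingEquiv.ext
    intro x
    show e (e.symm (g (e (e.symm x)))) = g x
    rw [e.apply_symm_apply, e.apply_symm_apply]
  exact isCyclic_of_surjective f hf

variable {F : IntermediateField ℚ ℂ}

/-- the fixed field of a subgroup, as a field of complex numbers -/
def fixedF (N : Subgroup (F ≃ₐ[ℚ] F)) : IntermediateField ℚ ℂ where
  carrier := {x | ∃ h : x ∈ F, ∀ s ∈ N, s (⟨x, h⟩ : F) = ⟨x, h⟩}
  mul_mem' := by
    rintro x y ⟨hx, hx'⟩ ⟨hy, hy'⟩
    refine ⟨F.mul_mem hx hy, fun s hs => ?_⟩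
    have h1 : (⟨x * y, F.mul_mem hx hy⟩ : F) = ⟨x, hx⟩ * ⟨y, hy⟩ := rfl
    rw [h1, map_mul, hx' s hs, hy' s hs]
  add_mem' := by
    rintro x y ⟨hx, hx'⟩ ⟨hy, hy'⟩
    refine ⟨F.add_mem hx hy, fun s hs => ?_⟩
    have h1 : (⟨x + y, F.add_mem hx hy⟩ : F) = ⟨x, hx⟩ + ⟨y, hy⟩ := rfl
    rw [h1, map_add, hx' s hs, hy' s hs]
  algebraMap_mem' := by
    intro r
    exact ⟨F.algebraMap_mem r, fun s _ => s.commutes r⟩
  inv_mem' := by
    rintro x ⟨hx, hx'⟩
    refine ⟨F.inv_mem hx, fun s hs => ?_⟩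
    have h1 : (⟨x⁻¹, F.inv_mem hx⟩ : F) = (⟨x, hx⟩ : F)⁻¹ := rfl
    rw [h1, map_inv₀, hx' s hs]

theorem fixedF_le (N : Subgroup (F ≃ₐ[ℚ] F)) : fixedF N ≤ F := fun _ h => h.1

theorem mem_fixedF (N : Subgroup (F ≃ₐ[ℚ] F)) (x : F) : (x : ℂ) ∈ fixedF N ↔ ∀ s ∈ N, s x = x :=
  ⟨fun h => h.2, fun h => ⟨x.2, h⟩⟩

/-- comparison -/
def fixedE (N : Subgroup (F ≃ₐ[ℚ] F)) : (IntermediateField.fixedField N) ≃+* fixedF N where
  toFun x := ⟨x.1.1, x.1.2, fun s hs => x.2 ⟨s, hs⟩⟩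
  invFun x := ⟨⟨x.1, x.2.1⟩, fun s => x.2.2 s.1 s.2⟩
  left_inv _ := rfl
  right_inv _ := rfl
  map_mul' _ _ := rfl
  map_add' _ _ := rfl

theorem cyc_fixedF (hF : IsAbelian F) (N : Subgroup (F ≃ₐ[ℚ] F)) (hn : N.Normal)
    (hN : IsCyclic ((F ≃ₐ[ℚ] F) ⧸ N)) : IsCyclic (fixedF N ≃+* fixedF N) := by
  have := abelianGalois hF
  have := finiteDim hF
  exact cyc_ring (cyc_fixed N hN) (fixedE N)

end Pool.Agent.Hx88.GD
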