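import Pool.Agent.Hx88.GD.Defs

/-!
# Subfields of cyclotomic fields and their embeddings (helper88)
-/

set_option autoImplicit false

namespace Pool.Agent.Hx88.GD

open Module Polynomial

theorem zeta_prim {d : ℕ} (hd : 0 < d) : IsPrimitiveRoot (zeta d) d :=
  Complex.isPrimitiveRoot_exp d hd.ne'

theorem cyc_ext {d : ℕ} (hd : 0 < d) : IsCyclotomicExtension {d} ℚ (Cyc d) := by
  have : NeZero d := ⟨hd.ne'⟩
  exact (IntermediateField.isCyclotomicExtension_singleton_iff_eq_adjoin (n := d) (K := ℚ) (L := ℂ)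
    (Cyc d) (zeta_prim hd)).2 rfl

/-- the generator -/
noncomputable def zz (d : ℕ) : Cyc d := ⟨zeta d, IntermediateField.mem_adjoin_simple_self ℚ _⟩

theorem zz_prim {d : ℕ} (hd : 0 < d) : IsPrimitiveRoot (zz d) d := by
  have h := zeta_prim hd
  rwa [show zeta d = (algebraMap (Cyc d) ℂ) (zz d) from rfl,
    IsPrimitiveRoot.map_iff_of_injective (algebraMap (Cyc d) ℂ).injective] at h

theorem exists_poly {d : ℕ} (hd : 0 < d) {x : ℂ} (hx : x ∈ Cyc d) :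
    ∃ P : ℚ[X], x = aeval (zeta d) P := by
  have h1 : IsIntegral ℚ (zeta d) := (zeta_prim hd).isIntegral hd |>.tower_top
  have h2 : x ∈ (Cyc d).toSubalgebra := hx
  rw [Cyc, IntermediateField.adjoin_simple_toSubalgebra_of_isAlgebraic h1.isAlgebraic,
    Algebra.adjoin_singleton_eq_range_aeval] at h2
  obtain ⟨P, hP⟩ := h2
  exact ⟨P, hP.symm⟩

theorem exists_aut {d : ℕ} (hd : 0 < d) (μ : (ZMod d)ˣ) :
    ∃ s : Cyc d ≃ₐ[ℚ] Cyc d, s (zz d) = zz d ^ (μ : ZMod d).val := by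
  have : NeZero d := ⟨hd.ne'⟩
  have := cyc_ext hd
  have hz := zz_prim hd
  have hμ : IsPrimitiveRoot (zz d ^ (μ : ZMod d).val) d :=
    hz.pow_of_coprime _ (ZMod.val_coe_unit_coprime μ)
  have hirr : Irreducible (cyclotomic d ℚ) := cyclotomic.irreducible_rat hd
  have hg1 : (hz.powerBasis ℚ).gen = zz d := IsPrimitiveRoot.powerBasis_gen ℚ hz
  have hg2 : (hμ.powerBasis ℚ).gen = zz d ^ (μ : ZMod d).val := IsPrimitiveRoot.powerBasis_gen ℚ hμ
  have hmin : minpoly ℚ (hz.powerBasis ℚ).gen = minpoly ℚ (hμ.powerBasis ℚ).gen := by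
    rw [hg1, hg2, ← hz.minpoly_eq_cyclotomic_of_irreducible hirr,
      ← hμ.minpoly_eq_cyclotomic_of_irreducible hirr]
  refine ⟨(hz.powerBasis ℚ).equivOfMinpoly (hμ.powerBasis ℚ) hmin, ?_⟩
  have h := PowerBasis.equivOfMinpoly_gen (hz.powerBasis ℚ) (hμ.powerBasis ℚ) hmin
  calc _ = (hz.powerBasis ℚ).equivOfMinpoly (hμ.powerBasis ℚ) hmin (hz.powerBasis ℚ).gen := by
        rw [hg1]
    _ = _ := by rw [h, hg2]

/-- the automorphism `ζ ↦ ζ ^ μ` -/
noncomputable def aut {d : ℕ} (hd : 0 < d) (μ : (ZMod d)ˣ) : Cyc d ≃ₐ[ℚ] Cyc d :=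
  (exists_aut hd μ).choose

theorem aut_zz {d : ℕ} (hd : 0 < d) (μ : (ZMod d)ˣ) : aut hd μ (zz d) = zz d ^ (μ : ZMod d).val :=
  (exists_aut hd μ).choose_spec

theorem coe_aeval {d : ℕ} (y : Cyc d) (P : ℚ[X]) : ((aeval y P : Cyc d) : ℂ) = aeval (y : ℂ) P :=
  (Polynomial.aeval_algebraMap_apply ℂ y P).symm

theorem aut_poly {d : ℕ} (hd : 0 < d) (μ : (ZMod d)ˣ) {y : Cyc d} {P : ℚ[X]}
    (h : (y : ℂ) = aeval (zeta d) P) : (aut hd μ y : ℂ) = aeval (zeta d ^ (μ : ZMod d).val) P := by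
  have h1 : y = aeval (zz d) P := by
    apply Subtype.ext
    rw [coe_aeval]
    exact h
  rw [h1, ← Polynomial.aeval_algHom_apply (aut hd μ) (zz d) P, coe_aeval, aut_zz]
  rfl

theorem zeta_pow_val {d : ℕ} (hd : 0 < d) (k : ℕ) : zeta d ^ k = zeta d ^ ((k : ZMod d)).val := by
  have : NeZero d := ⟨hd.ne'⟩
  rw [ZMod.val_natCast]
  conv_lhs => rw [← Nat.mod_add_div k d]
  rw [pow_add, pow_mul, (zeta_prim hd).pow_eq_one, one_pow, mul_one]

theorem aut_mul {d : ℕ} (hd : 0 < d) (μ ν : (ZMod d)ˣ) (y : Cyc d) :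
    aut hd (μ * ν) y = aut hd μ (aut hd ν y) := by
  have : NeZero d := ⟨hd.ne'⟩
  obtain ⟨P, hP⟩ := exists_poly hd y.2
  apply Subtype.ext
  have h1 := aut_poly hd ν hP
  have h2 : (aut hd ν y : ℂ) = aeval (zeta d) (P.comp (X ^ (ν : ZMod d).val)) := by
    rw [h1, aeval_comp, map_pow, aeval_X]
  rw [aut_poly hd (μ * ν) hP, aut_poly hd μ h2, aeval_comp, map_pow, aeval_X, ← pow_mul,
    zeta_pow_val hd ((μ : ZMod d).val * (ν : ZMod d).val)]
  congr 2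
  push_cast
  rw [ZMod.natCast_zmod_val, ZMod.natCast_zmod_val]

theorem aut_one {d : ℕ} (hd : 0 < d) (y : Cyc d) : aut hd 1 y = y := by
  obtain ⟨P, hP⟩ := exists_poly hd y.2
  apply Subtype.ext
  rw [aut_poly hd 1 hP, hP, Units.val_one]
  congr 2
  have h := zeta_pow_val hd 1
  rw [Nat.cast_one, pow_one] at h
  exact h.symm

variable {F : IntermediateField ℚ ℂ}

theorem rel_iff {d : ℕ} (hd : 0 < d) (hF : F ≤ Cyc d) {μ : (ZMod d)ˣ} {σ : F →ₐ[ℚ] ℂ} :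
    Rel d μ σ ↔ ∀ x : F, σ x = aut hd μ ⟨x, hF x.2⟩ := by
  constructor
  · intro h x
    obtain ⟨P, hP⟩ := exists_poly hd (hF x.2)
    rw [h x P hP, aut_poly hd μ (y := ⟨x, hF x.2⟩) hP]
  · intro h x P hP
    rw [h x, aut_poly hd μ (y := ⟨x, hF x.2⟩) hP]

theorem rel_one {d : ℕ} (hd : 0 < d) (hF : F ≤ Cyc d) : Rel d 1 F.val := by
  rw [rel_iff hd hF]
  intro x
  rw [aut_one]
  rfl

theorem rel_mul {d : ℕ} (hd : 0 < d) (hF : F ≤ Cyc d) {μ ν : (ZMod d)ˣ} {σ : F →ₐ[ℚ] ℂ}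
    (h1 : Rel d μ σ) (h2 : Rel d ν F.val) : Rel d (μ * ν) σ := by
  rw [rel_iff hd hF] at h1 h2 ⊢
  intro x
  rw [aut_mul, h1 x]
  congr 2
  apply Subtype.ext
  exact h2 x

theorem rel_div {d : ℕ} (hd : 0 < d) (hF : F ≤ Cyc d) {μ ν : (ZMod d)ˣ} {σ : F →ₐ[ℚ] ℂ}
    (h1 : Rel d μ σ) (h2 : Rel d ν σ) : Rel d (μ⁻¹ * ν) F.val := by
  rw [rel_iff hd hF] at h1 h2 ⊢
  intro x
  have h3 : aut hd ν ⟨x, hF x.2⟩ = aut hd μ ⟨x, hF x.2⟩ := by
    apply Subtype.ext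
    rw [← h2 x, h1 x]
  rw [aut_mul, h3, ← aut_mul, inv_mul_cancel, aut_one]
  rfl

theorem exists_rel {d : ℕ} (hd : 0 < d) (hF : F ≤ Cyc d) (σ : F →ₐ[ℚ] ℂ) :
    ∃ μ : (ZMod d)ˣ, Rel d μ σ := by
  have : NeZero d := ⟨hd.ne'⟩
  have := cyc_ext hd
  have : FiniteDimensional ℚ (Cyc d) := IsCyclotomicExtension.finiteDimensional {d} ℚ (Cyc d)
  -- extend the embedding
  obtain ⟨s, hs⟩ : ∃ s : Cyc d →+* ℂ, ∀ x : F, s ⟨x, hF x.2⟩ = σ x := by
    letI : Algebra F (Cyc d) := (IntermediateField.inclusion hF).toRingHom.toAlgebra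
    letI : Algebra F ℂ := σ.toRingHom.toAlgebra
    have : IsScalarTower ℚ F (Cyc d) := IsScalarTower.of_algebraMap_eq fun q => rfl
    have : Algebra.IsAlgebraic F (Cyc d) := Algebra.IsAlgebraic.tower_top (K := ℚ) F
    exact ⟨(IsAlgClosed.lift (R := F) (S := Cyc d) (M := ℂ)).toRingHom, fun x =>
      AlgHom.commutes (IsAlgClosed.lift (R := F) (S := Cyc d) (M := ℂ)) x⟩
  have h1 : IsPrimitiveRoot (s (zz d)) d := (zz_prim hd).map_of_injective s.injective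
  obtain ⟨k, hk, hk'⟩ := (zeta_prim hd).eq_pow_of_pow_eq_one h1.pow_eq_one
  have hcop : k.Coprime d := by
    rw [← hk'] at h1
    exact ((zeta_prim hd).pow_iff_coprime hd k).1 h1
  refine ⟨ZMod.unitOfCoprime k hcop, ?_⟩
  intro x P hP
  rw [← hs x]
  have h2 : (⟨x, hF x.2⟩ : Cyc d) = aeval (zz d) P := by
    apply Subtype.ext
    rw [coe_aeval]
    exact hP
  have h3 : s (aeval (zz d) P) = aeval (s (zz d)) P :=
    (Polynomial.aeval_algHom_apply s.toRatAlgHom (zz d) P).symm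
  rw [h2, h3, ← hk', ZMod.coe_unitOfCoprime, ← zeta_pow_val hd]

theorem conj_zeta {d : ℕ} (hd : 0 < d) : (starRingEnd ℂ) (zeta d) = (zeta d)⁻¹ := by
  rw [zeta, ← Complex.exp_conj, ← Complex.exp_neg]
  congr 1
  simp only [map_div₀, map_mul, Complex.conj_ofReal, Complex.conj_I, map_natCast, map_ofNat]
  ring

theorem rel_conj {d : ℕ} (hd : 0 < d) {μ : (ZMod d)ˣ} {σ : F →ₐ[ℚ] ℂ} (h : Rel d μ σ) :
    Rel d (-μ) (conjE σ) := by
  have : NeZero d := ⟨hd.ne'⟩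
  intro x P hP
  have h1 : conjE σ x = (starRingEnd ℂ) (σ x) := rfl
  have h2 : (starRingEnd ℂ) (aeval (zeta d ^ (μ : ZMod d).val) P) =
      aeval ((starRingEnd ℂ) (zeta d ^ (μ : ZMod d).val)) P :=
    (Polynomial.aeval_algHom_apply (starRingEnd ℂ).toRatAlgHom _ P).symm
  rw [h1, h x P hP, h2]
  congr 2
  rw [map_pow, conj_zeta hd, Units.val_neg]
  have h3 : zeta d ^ (μ : ZMod d).val * zeta d ^ (-(μ : ZMod d)).val = 1 := by
    rw [← pow_add, zeta_pow_val hd]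
    push_cast
    rw [ZMod.natCast_zmod_val, ZMod.natCast_zmod_val, add_neg_cancel, ZMod.val_zero, pow_zero]
  rw [inv_pow]
  exact (eq_inv_of_mul_eq_one_right h3).symm

theorem cond_spec (hF : IsAbelian F) : 0 < cond F ∧ F ≤ Cyc (cond F) :=
  Nat.sInf_mem (s := {d : ℕ | 0 < d ∧ F ≤ Cyc d}) hF

theorem three_le_cond (hF : IsAbelian F) (him : IsImaginary F) : 3 ≤ cond F := by
  obtain ⟨h0, h1⟩ := cond_spec hF
  obtain ⟨x, hx, hx'⟩ := him
  by_contra hlt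
  have h2 : cond F = 1 ∨ cond F = 2 := by omega
  apply hx'
  obtain ⟨P, hP⟩ := exists_poly h0 (h1 hx)
  have h3 : (starRingEnd ℂ) (zeta (cond F)) = zeta (cond F) := by
    have h4 := (zeta_prim h0).pow_eq_one
    have h5 : zeta (cond F) ^ 2 = 1 := by
      rcases h2 with h | h
      · rw [h] at h4 ⊢
        rw [pow_one] at h4
        rw [h4, one_pow]
      · rw [h] at h4 ⊢
        exact h4
    rw [conj_zeta h0]
    have h6 : zeta (cond F) * zeta (cond F) = 1 := by rw [← sq]; exact h5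
    exact (eq_inv_of_mul_eq_one_left h6).symm
  have h4 : (starRingEnd ℂ) (aeval (zeta (cond F)) P) = aeval ((starRingEnd ℂ) (zeta (cond F))) P :=
    (Polynomial.aeval_algHom_apply (starRingEnd ℂ).toRatAlgHom _ P).symm
  rw [hP, h4, h3]

theorem isAbelian_mono {F' : IntermediateField ℚ ℂ} (h : F' ≤ F) (hF : IsAbelian F) : IsAbelian F' := by
  obtain ⟨d, hd, hF⟩ := hF
  exact ⟨d, hd, h.trans hF⟩

theorem abelianGalois (hF : IsAbelian F) : IsAbelianGalois ℚ F := by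
  obtain ⟨d, hd, hF⟩ := hF
  have : NeZero d := ⟨hd.ne'⟩
  have := cyc_ext hd
  have : IsAbelianGalois ℚ (Cyc d) := IsCyclotomicExtension.isAbelianGalois {d} ℚ (Cyc d)
  exact @IsAbelianGalois.of_algHom ℚ F (Cyc d) _ _ _ _ _ (IntermediateField.inclusion hF) this

theorem finiteDim (hF : IsAbelian F) : FiniteDimensional ℚ F := by
  obtain ⟨d, hd, hF⟩ := hF
  have : NeZero d := ⟨hd.ne'⟩
  have := cyc_ext hd
  have : FiniteDimensional ℚ (Cyc d) := IsCyclotomicExtension.finiteDimensional {d} ℚ (Cyc d)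
  exact FiniteDimensional.of_injective (IntermediateField.inclusion hF).toLinearMap
    (IntermediateField.inclusion hF).injective

end Pool.Agent.Hx88.GD
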