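import Pool.Agent.Hx88.GD.Key

/-!
# The products of gamma values (helper88)
-/

set_option autoImplicit false
set_option linter.unusedSectionVars false

namespace Pool.Agent.Hx88.GD

open Module

theorem sum_ind {d : ℕ} (hd : 0 < d) {μ : ZMod d} (hμ : μ ≠ 0) (f : ℕ → ℝ) :
    ∑ a ∈ Finset.Ioo 0 d, (if (a : ZMod d) = μ then f a else 0) = f μ.val := by
  have : NeZero d := ⟨hd.ne'⟩
  rw [Finset.sum_eq_single μ.val]
  · rw [if_pos (ZMod.natCast_zmod_val μ)]
  · intro a ha hne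
    rw [if_neg]
    rintro rfl
    apply hne
    rw [ZMod.val_natCast, Nat.mod_eq_of_lt (Finset.mem_Ioo.1 ha).2]
  · intro h
    exfalso
    apply h
    rw [Finset.mem_Ioo]
    exact ⟨Nat.pos_of_ne_zero fun h0 => hμ ((ZMod.val_eq_zero μ).1 h0), ZMod.val_lt μ⟩

theorem sum_indQ {d : ℕ} (hd : 0 < d) {μ : ZMod d} (hμ : μ ≠ 0) (f : ℕ → ℚ) :
    ∑ a ∈ Finset.Ioo 0 d, (if (a : ZMod d) = μ then f a else 0) = f μ.val := by
  have : NeZero d := ⟨hd.ne'⟩
  rw [Finset.sum_eq_single μ.val]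
  · rw [if_pos (ZMod.natCast_zmod_val μ)]
  · intro a ha hne
    rw [if_neg]
    rintro rfl
    apply hne
    rw [ZMod.val_natCast, Nat.mod_eq_of_lt (Finset.mem_Ioo.1 ha).2]
  · intro h
    exfalso
    apply h
    rw [Finset.mem_Ioo]
    exact ⟨Nat.pos_of_ne_zero fun h0 => hμ ((ZMod.val_eq_zero μ).1 h0), ZMod.val_lt μ⟩

theorem gam_pos {d a : ℕ} (ha : a ∈ Finset.Ioo 0 d) : 0 < Real.Gamma (1 - a / d) := by
  rw [Finset.mem_Ioo] at ha
  apply Real.Gamma_pos_of_pos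
  have h1 : (0 : ℝ) < d := by exact_mod_cast (ha.1.trans ha.2)
  have h2 : (a : ℝ) / d < 1 := by
    rw [div_lt_one h1]
    exact_mod_cast ha.2
  linarith

theorem gammaProd_pos (d : ℕ) (ε : ZMod d → ℚ) (lam : (ZMod d)ˣ) : 0 < gammaProd d ε lam :=
  Finset.prod_pos fun _ ha => Real.rpow_pos_of_pos (gam_pos ha) _

theorem gammaProd_exp (d : ℕ) (ε : ZMod d → ℚ) (lam : (ZMod d)ˣ) :
    gammaProd d ε lam = Real.exp (∑ a ∈ Finset.Ioo 0 d,
      (ε (a * ((lam⁻¹ : (ZMod d)ˣ) : ZMod d)) : ℝ) * Real.log (Real.Gamma (1 - a / d))) := by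
  rw [Real.exp_sum, gammaProd]
  refine Finset.prod_congr rfl fun a ha => ?_
  rw [Real.rpow_def_of_pos (gam_pos ha), mul_comm]

theorem gammaProd_add (d : ℕ) (ε ε' : ZMod d → ℚ) (lam : (ZMod d)ˣ) :
    gammaProd d (ε + ε') lam = gammaProd d ε lam * gammaProd d ε' lam := by
  rw [gammaProd_exp, gammaProd_exp, gammaProd_exp, ← Real.exp_add, ← Finset.sum_add_distrib]
  congr 1
  refine Finset.sum_congr rfl fun a _ => ?_
  rw [Pi.add_apply]
  push_cast
  ring

/-- `q (δ_1 + δ_{-1})` -/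
def dl (d q : ℕ) (a : ZMod d) : ℚ :=
  (if a = 1 then (q : ℚ) else 0) + (if a = -1 then (q : ℚ) else 0)

theorem dl_sum {d : ℕ} (hd : 1 < d) (q : ℕ) (lam : (ZMod d)ˣ) :
    ∑ a ∈ Finset.Ioo 0 d, dl d q a * (((lam : ZMod d) * a).val : ℚ) = d * q := by
  have : NeZero d := ⟨by omega⟩
  have : Fact (1 < d) := ⟨hd⟩
  have h1 : ∀ a : ℕ, dl d q a * (((lam : ZMod d) * a).val : ℚ) =
      (if (a : ZMod d) = 1 then (q : ℚ) * (lam : ZMod d).val else 0) +
        (if (a : ZMod d) = -1 then (q : ℚ) * (-(lam : ZMod d)).val else 0) := by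
    intro a
    rw [dl, add_mul]
    congr 1
    · split_ifs with h
      · rw [h, mul_one]
      · rw [zero_mul]
    · split_ifs with h
      · rw [h, mul_neg_one]
      · rw [zero_mul]
  simp_rw [h1]
  rw [Finset.sum_add_distrib, sum_indQ (by omega) one_ne_zero fun _ => (q : ℚ) * (lam : ZMod d).val,
    sum_indQ (by omega) (neg_ne_zero.2 one_ne_zero) fun _ => (q : ℚ) * (-(lam : ZMod d)).val,
    ZMod.neg_val]
  rw [if_neg lam.ne_zero, Nat.cast_sub (ZMod.val_lt _).le]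
  ring

theorem alg_sin {d : ℕ} (hd : 0 < d) (k : ℕ) : IsAlgebraic ℚ (Complex.sin (Real.pi * (k / d))) := by
  have h1 : ∀ z : ℂ, z ^ (2 * d) = 1 → IsAlgebraic ℚ z := by
    intro z hz
    exact IsAlgebraic.of_pow (n := 2 * d) (by omega) (by rw [hz]; exact isAlgebraic_one)
  have hd' : (d : ℂ) ≠ 0 := by exact_mod_cast hd.ne'
  have h2 : IsAlgebraic ℚ (Complex.exp (Real.pi * (k / d) * Complex.I)) := by
    apply h1
    rw [← Complex.exp_nat_mul, Complex.exp_eq_one_iff]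
    refine ⟨k, ?_⟩
    push_cast
    field_simp
  have h3 : IsAlgebraic ℚ (Complex.exp (-(Real.pi * (k / d)) * Complex.I)) := by
    apply h1
    rw [← Complex.exp_nat_mul, Complex.exp_eq_one_iff]
    refine ⟨-k, ?_⟩
    push_cast
    field_simp
  have hI : IsAlgebraic ℚ Complex.I := by
    apply IsAlgebraic.of_pow (n := 2) two_pos
    rw [Complex.I_sq]
    exact isAlgebraic_one.neg
  have h4 : IsAlgebraic ℚ (2 : ℂ) := by
    have := isAlgebraic_algebraMap (R := ℚ) (A := ℂ) 2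
    simpa using this
  rw [Complex.sin]
  rw [div_eq_mul_inv]
  exact ((h3.sub h2).mul hI).mul h4.inv

theorem sin_ne {d k : ℕ} (hk : 0 < k) (hkd : k < d) : Complex.sin (Real.pi * (k / d)) ≠ 0 := by
  have h1 : 0 < Real.sin (Real.pi * (k / d)) := by
    apply Real.sin_pos_of_pos_of_lt_pi
    · have : (0 : ℝ) < k / d := div_pos (by exact_mod_cast hk) (by exact_mod_cast hk.trans hkd)
      positivity
    · have : (k : ℝ) / d < 1 := by
        rw [div_lt_one (by exact_mod_cast hk.trans hkd)]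
        exact_mod_cast hkd
      have hpi := Real.pi_pos
      nlinarith
  have h2 : ((Real.sin (Real.pi * (k / d)) : ℝ) : ℂ) = Complex.sin (Real.pi * (k / d)) := by
    push_cast
    rfl
  rw [← h2]
  exact_mod_cast h1.ne'

/-- the value at a unit and its negative -/
theorem gammaProd_dl {d : ℕ} (hd : 1 < d) (q : ℕ) (lam : (ZMod d)ˣ) :
    gammaProd d (dl d q) lam =
      (Real.pi / Real.sin (Real.pi * ((lam : ZMod d).val / d))) ^ q := by
  have : NeZero d := ⟨by omega⟩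
  have : Fact (1 < d) := ⟨hd⟩
  have h0 : (lam : ZMod d) ≠ 0 := lam.ne_zero
  have hv : 0 < (lam : ZMod d).val := Nat.pos_of_ne_zero fun h => h0 ((ZMod.val_eq_zero _).1 h)
  have hlt : (lam : ZMod d).val < d := ZMod.val_lt _
  have hdr : (0 : ℝ) < d := by exact_mod_cast (by omega : 0 < d)
  have h1 : ∀ a : ℕ, (dl d q (a * ((lam⁻¹ : (ZMod d)ˣ) : ZMod d)) : ℝ) *
      Real.log (Real.Gamma (1 - a / d)) =
      (if (a : ZMod d) = lam then (q : ℝ) * Real.log (Real.Gamma (1 - a / d)) else 0) +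
        (if (a : ZMod d) = -lam then (q : ℝ) * Real.log (Real.Gamma (1 - a / d)) else 0) := by
    intro a
    have e1 : (a : ZMod d) * ((lam⁻¹ : (ZMod d)ˣ) : ZMod d) = 1 ↔ (a : ZMod d) = lam := by
      rw [Units.mul_inv_eq_iff_eq_mul, one_mul]
    have e2 : (a : ZMod d) * ((lam⁻¹ : (ZMod d)ˣ) : ZMod d) = -1 ↔ (a : ZMod d) = -lam := by
      rw [Units.mul_inv_eq_iff_eq_mul, neg_one_mul]
    rw [dl]
    simp only [e1, e2]
    push_cast
    rw [add_mul]
    congr 1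
    · split_ifs <;> simp
    · split_ifs <;> simp
  rw [gammaProd_exp]
  simp_rw [h1]
  rw [Finset.sum_add_distrib,
    sum_ind (by omega) h0 fun a => (q : ℝ) * Real.log (Real.Gamma (1 - a / d)),
    sum_ind (by omega) (neg_ne_zero.2 h0) fun a => (q : ℝ) * Real.log (Real.Gamma (1 - a / d)),
    ZMod.neg_val, if_neg h0, ← mul_add]
  set k := (lam : ZMod d).val with hk
  have hG1 : 0 < Real.Gamma (1 - (k : ℝ) / d) := gam_pos (Finset.mem_Ioo.2 ⟨hv, hlt⟩)
  have e3 : (1 : ℝ) - ((d - k : ℕ) : ℝ) / d = (k : ℝ) / d := by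
    rw [Nat.cast_sub hlt.le]
    field_simp
    ring
  have hG2 : 0 < Real.Gamma ((k : ℝ) / d) :=
    Real.Gamma_pos_of_pos (div_pos (by exact_mod_cast hv) hdr)
  rw [e3, ← Real.log_mul hG1.ne' hG2.ne', mul_comm (Real.Gamma (1 - (k : ℝ) / d)),
    Real.Gamma_mul_Gamma_one_sub, mul_comm, Real.exp_mul, Real.exp_log]
  · rw [Real.rpow_natCast]
  · rw [← Real.Gamma_mul_Gamma_one_sub]
    exact mul_pos hG2 hG1

theorem sim_gammaProd_dl {d : ℕ} (hd : 1 < d) (q : ℕ) (lam : (ZMod d)ˣ) :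
    Sim (gammaProd d (dl d q) lam) ((2 * Real.pi * Complex.I) ^ q) := by
  have : NeZero d := ⟨by omega⟩
  have : Fact (1 < d) := ⟨hd⟩
  have h0 : (lam : ZMod d) ≠ 0 := lam.ne_zero
  have hv : 0 < (lam : ZMod d).val := Nat.pos_of_ne_zero fun h => h0 ((ZMod.val_eq_zero _).1 h)
  have hlt : (lam : ZMod d).val < d := ZMod.val_lt _
  have hs := sin_ne hv hlt
  have hI : IsAlgebraic ℚ Complex.I := by
    apply IsAlgebraic.of_pow (n := 2) two_pos
    rw [Complex.I_sq]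
    exact isAlgebraic_one.neg
  have h4 : IsAlgebraic ℚ (2 : ℂ) := by
    have := isAlgebraic_algebraMap (R := ℚ) (A := ℂ) 2
    simpa using this
  refine ⟨((Complex.sin (Real.pi * ((lam : ZMod d).val / d)) * (2 * Complex.I))⁻¹) ^ q, ?_, ?_, ?_⟩
  · apply pow_ne_zero
    apply inv_ne_zero
    apply mul_ne_zero hs
    simp
  · exact (((alg_sin (by omega) _).mul (h4.mul hI)).inv).pow _
  · rw [gammaProd_dl hd, ← mul_pow]
    push_cast
    congr 1
    have hI' : Complex.I ≠ 0 := Complex.I_ne_zero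
    field_simp

end Pool.Agent.Hx88.GD
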