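import Mathlib

/-!
# Functions on a finite abelian group with vanishing sums over the cosets of the subgroups with cyclic
quotient (helper88)
-/

set_option autoImplicit false

namespace Pool.Agent.Hx88.GD

open Finset

variable {G : Type*} [CommGroup G] [Fintype G]

theorem cyclic_ker (φ : G →* ℂˣ) : IsCyclic (G ⧸ φ.ker) :=
  isCyclic_of_injective (QuotientGroup.quotientKerEquivRange φ).toMonoidHom
    (QuotientGroup.quotientKerEquivRange φ).injective

open Classical in
/-- a function whose sums over the cosets of all subgroups with cyclic quotient vanish is zero -/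
theorem eq_zero_of_cosets (F : G → ℚ)
    (h : ∀ (N : Subgroup G), IsCyclic (G ⧸ N) → ∀ g : G, ∑ n : N, F (g * n) = 0) : F = 0 := by
  -- the character sums
  have hS : ∀ χ : AddChar (Additive G) ℂ, ∑ g : G, (F g : ℂ) * χ (Additive.ofMul g) = 0 := by
    intro χ
    obtain ⟨φ, hφ⟩ : ∃ φ : G →* ℂˣ, ∀ g, (φ g : ℂ) = χ (Additive.ofMul g) := by
      let φ₀ : G →* ℂ :=
        { toFun := fun g => χ (Additive.ofMul g)
          map_one' := by
            show χ (Additive.ofMul 1) = 1
            rw [ofMul_one, AddChar.map_zero_eq_one]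
          map_mul' := fun a b => by
            show χ (Additive.ofMul (a * b)) = χ (Additive.ofMul a) * χ (Additive.ofMul b)
            rw [ofMul_mul, AddChar.map_add_eq_mul] }
      exact ⟨φ₀.toHomUnits, fun g => rfl⟩
    simp_rw [← hφ]
    obtain ⟨N, hN, hcyc⟩ : ∃ N : Subgroup G, (∀ g, g ∈ N ↔ φ g = 1) ∧ IsCyclic (G ⧸ N) :=
      ⟨φ.ker, fun g => MonoidHom.mem_ker, cyclic_ker φ⟩
    have h0 := h N hcyc
    have h1 : ∀ n : N, ∑ g : G, (F g : ℂ) * (φ g : ℂ) = ∑ g : G, (F (g * n) : ℂ) * (φ g : ℂ) := by
      intro n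
      rw [← Equiv.sum_comp (Equiv.mulRight (n : G))]
      refine Finset.sum_congr rfl fun g _ => ?_
      have hn : φ n = 1 := (hN _).1 n.2
      rw [Equiv.coe_mulRight, map_mul, hn, mul_one]
    have h2 : ∑ _n : N, ∑ g : G, (F g : ℂ) * (φ g : ℂ) = 0 := by
      rw [Finset.sum_congr rfl fun n _ => h1 n, Finset.sum_comm]
      refine Finset.sum_eq_zero fun g _ => ?_
      rw [← Finset.sum_mul]
      have h3 := h0 g
      have h4 : (∑ n : N, (F (g * n) : ℂ)) = 0 := by exact_mod_cast congrArg (fun q : ℚ => (q : ℂ)) h3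
      rw [h4, zero_mul]
    rw [Finset.sum_const, nsmul_eq_mul] at h2
    rcases mul_eq_zero.1 h2 with h3 | h3
    · rw [Nat.cast_eq_zero, Finset.card_univ] at h3
      exact absurd h3 Fintype.card_ne_zero
    · exact h3
  funext g₀
  have h1 : ∑ χ : AddChar (Additive G) ℂ, χ (Additive.ofMul g₀⁻¹) *
      ∑ g : G, (F g : ℂ) * χ (Additive.ofMul g) = 0 :=
    Finset.sum_eq_zero fun χ _ => by rw [hS χ, mul_zero]
  simp_rw [Finset.mul_sum] at h1
  rw [Finset.sum_comm] at h1
  have h2 : ∀ g : G, ∑ χ : AddChar (Additive G) ℂ, χ (Additive.ofMul g₀⁻¹) *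
      ((F g : ℂ) * χ (Additive.ofMul g)) = if g = g₀ then (F g : ℂ) * Fintype.card G else 0 := by
    intro g
    have h3 : ∀ χ : AddChar (Additive G) ℂ, χ (Additive.ofMul g₀⁻¹) *
        ((F g : ℂ) * χ (Additive.ofMul g)) = (F g : ℂ) * χ (Additive.ofMul (g₀⁻¹ * g)) := by
      intro χ
      rw [ofMul_mul, AddChar.map_add_eq_mul]
      ring
    simp_rw [h3]
    rw [← Finset.mul_sum, AddChar.sum_apply_eq_ite]
    by_cases hg : g = g₀
    · subst hg
      simp
    · rw [if_neg hg, if_neg, mul_zero]
      intro h4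
      apply hg
      have h5 : g₀⁻¹ * g = 1 := ofMul_eq_zero.1 h4
      exact (inv_mul_eq_one.1 h5).symm
  rw [Finset.sum_congr rfl fun g _ => h2 g, Finset.sum_ite_eq' Finset.univ g₀] at h1
  rw [if_pos (Finset.mem_univ _)] at h1
  rcases mul_eq_zero.1 h1 with h3 | h3
  · exact_mod_cast h3
  · exact absurd (Nat.cast_eq_zero.1 h3) Fintype.card_ne_zero

open Classical in
/-- a subspace of the functions on `G` which contains the indicator functions of the cosets of all
subgroups with cyclic quotient is everything -/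
theorem span_cosets (A : Submodule ℚ (G → ℚ))
    (h : ∀ (N : Subgroup G), IsCyclic (G ⧸ N) → ∀ g : G,
      (∑ n : N, Pi.single (g * (n : G)) (1 : ℚ) : G → ℚ) ∈ A) : A = ⊤ := by
  by_contra hA
  obtain ⟨v, hv⟩ : ∃ v, v ∉ A := by
    by_contra hc
    push Not at hc
    exact hA (eq_top_iff.2 fun v _ => hc v)
  obtain ⟨f, hfv, hf⟩ := Submodule.exists_le_ker_of_notMem hv
  have h1 : (fun g : G => f (Pi.single g 1)) = 0 := by
    apply eq_zero_of_cosets
    intro N hN g
    have h2 := hf (h N hN g)
    rw [LinearMap.mem_ker, map_sum] at h2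
    exact h2
  apply hfv
  have h2 : v = ∑ g : G, v g • (Pi.single g (1 : ℚ) : G → ℚ) := by
    funext x
    rw [Finset.sum_apply]
    simp [Pi.single_apply]
  rw [h2, map_sum]
  refine Finset.sum_eq_zero fun g _ => ?_
  rw [map_smul, congrFun h1 g]
  simp

open Classical in
/-- **Multiplicative form.** If the products of `c` over the cosets of all subgroups with cyclic quotient
are algebraic numbers then all values of `c` are algebraic numbers. -/
theorem algebraic_of_cosets (c : G → ℂ) (hc : ∀ g, c g ≠ 0)
    (h : ∀ (N : Subgroup G), IsCyclic (G ⧸ N) → ∀ g : G,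
      IsAlgebraic ℚ (∏ n : N, c (g * n))) (g : G) : IsAlgebraic ℚ (c g) := by
  let A : Submodule ℚ (G → ℚ) :=
    { carrier := {F | ∃ (m : ℕ) (k : G → ℤ), m ≠ 0 ∧ (∀ g, (k g : ℚ) = m * F g) ∧
        IsAlgebraic ℚ (∏ g, c g ^ k g)}
      zero_mem' := ⟨1, 0, one_ne_zero, fun g => by simp, by simpa using isAlgebraic_one⟩
      add_mem' := by
        rintro F F' ⟨m, k, hm, hk, ha⟩ ⟨m', k', hm', hk', ha'⟩
        refine ⟨m * m', fun g => m' * k g + m * k' g, mul_ne_zero hm hm', ?_, ?_⟩
        · intro g
          push_cast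
          rw [hk, hk', Pi.add_apply]
          ring
        · have h1 : ∏ g, c g ^ ((m' : ℤ) * k g + m * k' g) =
              (∏ g, c g ^ k g) ^ m' * (∏ g, c g ^ k' g) ^ m := by
            rw [← Finset.prod_pow, ← Finset.prod_pow, ← Finset.prod_mul_distrib]
            refine Finset.prod_congr rfl fun g _ => ?_
            rw [zpow_add₀ (hc g), mul_comm (m' : ℤ), mul_comm (m : ℤ), zpow_mul, zpow_mul,
              zpow_natCast, zpow_natCast]
          rw [h1]
          exact (ha.pow _).mul (ha'.pow _)
      smul_mem' := by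
        rintro q F ⟨m, k, hm, hk, ha⟩
        refine ⟨m * q.den, fun g => q.num * k g, mul_ne_zero hm q.den_ne_zero, ?_, ?_⟩
        · intro g
          push_cast
          rw [hk, Pi.smul_apply, smul_eq_mul]
          have h1 : (q.num : ℚ) = q * q.den := by
            rw [Rat.mul_den_eq_num]
          rw [h1]
          ring
        · have h1 : ∏ g, c g ^ (q.num * k g) = (∏ g, c g ^ k g) ^ q.num := by
            rw [← Finset.prod_zpow]
            refine Finset.prod_congr rfl fun g _ => ?_
            rw [mul_comm, zpow_mul]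
          rw [h1]
          rcases q.num with n | n
          · rw [Int.ofNat_eq_natCast, zpow_natCast]
            exact ha.pow _
          · rw [zpow_negSucc]
            exact (ha.pow _).inv }
  have hA : A = ⊤ := by
    apply span_cosets
    intro N hN g
    refine ⟨1, ∑ n : N, Pi.single (g * (n : G)) (1 : ℤ), one_ne_zero, ?_, ?_⟩
    · intro x
      rw [Finset.sum_apply, Finset.sum_apply, Nat.cast_one, one_mul]
      push_cast
      refine Finset.sum_congr rfl fun n _ => ?_
      rw [Pi.single_apply, Pi.single_apply]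
      split_ifs <;> simp
    · have h1 : ∏ x, c x ^ ((∑ n : N, Pi.single (g * (n : G)) (1 : ℤ) : G → ℤ) x) =
          ∏ n : N, c (g * n) := by
        simp_rw [Finset.sum_apply]
        have h2 : ∀ x, c x ^ (∑ n : N, (Pi.single (g * (n : G)) (1 : ℤ) : G → ℤ) x) =
            ∏ n : N, c x ^ ((Pi.single (g * (n : G)) (1 : ℤ) : G → ℤ) x) := by
          intro x
          induction (Finset.univ : Finset N) using Finset.induction_on with
          | empty => simp
          | insert a s has ih =>
            rw [Finset.sum_insert has, Finset.prod_insert has, zpow_add₀ (hc x), ih]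
        simp_rw [h2]
        rw [Finset.prod_comm]
        refine Finset.prod_congr rfl fun n _ => ?_
        rw [Finset.prod_eq_single (g * (n : G))]
        · simp
        · intro b _ hb
          rw [Pi.single_eq_of_ne hb, zpow_zero]
        · intro h3
          exact absurd (Finset.mem_univ _) h3
      rw [h1]
      exact h N hN g
  have h1 : (Pi.single g 1 : G → ℚ) ∈ A := by rw [hA]; trivial
  obtain ⟨m, k, hm, hk, ha⟩ := h1
  have h2 : ∏ x, c x ^ k x = c g ^ m := by
    rw [Finset.prod_eq_single g]
    · have h3 := hk g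
      rw [Pi.single_eq_same, mul_one] at h3
      have h4 : k g = m := by exact_mod_cast h3
      rw [h4, zpow_natCast]
    · intro b _ hb
      have h3 := hk b
      rw [Pi.single_eq_of_ne hb, mul_zero] at h3
      have h4 : k b = 0 := by exact_mod_cast h3
      rw [h4, zpow_zero]
    · intro h3
      exact absurd (Finset.mem_univ _) h3
  rw [h2] at ha
  exact IsAlgebraic.of_pow (Nat.pos_of_ne_zero hm) ha

end Pool.Agent.Hx88.GD
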