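import Pool.Agent.Hx88.GD.Fix
import Pool.Agent.Hx88.GD.Grp

/-!
# Lines of Hodge classes: reduction to imaginary cyclic fields (helper88)
-/

set_option autoImplicit false
set_option linter.unusedSectionVars false

namespace Pool.Agent.Hx88.GD

open Module TensorProduct

open Classical in
theorem algebraic_of_cosets' {G : Type*} [Group G] [Fintype G] (hcomm : ∀ a b : G, a * b = b * a)
    (c : G → ℂ) (hc : ∀ g, c g ≠ 0)
    (h : ∀ (N : Subgroup G) (_ : N.Normal), IsCyclic (G ⧸ N) → ∀ g : G,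
      IsAlgebraic ℚ (∏ n : N, c (g * n))) (g : G) : IsAlgebraic ℚ (c g) := by
  let inst : CommGroup G := { ‹Group G› with mul_comm := hcomm }
  exact algebraic_of_cosets c hc (fun N hN g => h N (by infer_instance) hN g) g

theorem sim_of_alg {x y : ℂ} (hx : x ≠ 0) (hy : y ≠ 0) (h : IsAlgebraic ℚ (x / y)) : Sim x y :=
  ⟨x / y, div_ne_zero hx hy, h, by rw [div_mul_cancel₀ _ hy]⟩

theorem alg_of_sim {x y : ℂ} (hy : y ≠ 0) (h : Sim x y) : IsAlgebraic ℚ (x / y) := by
  obtain ⟨a, -, ha, rfl⟩ := h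
  rwa [mul_div_cancel_right₀ _ hy]

theorem two_pi_I_ne : (2 * Real.pi * Complex.I : ℂ) ≠ 0 := by
  simp [Real.pi_ne_zero]

/-- extension of embeddings -/
theorem ext_emb {K L : Type} [Field K] [Field L] [CharZero L] {inst : Algebra ℚ L}
    (hL : Algebra.IsAlgebraic ℚ L) (i : K →+* L) (τ : K →+* ℂ) :
    ∃ σ : L →+* ℂ, ∀ x, σ (i x) = τ x := by
  have : CharZero K := (RingHom.charZero_iff i.injective).2 inferInstance
  letI : Algebra K L := i.toAlgebra
  letI : Algebra K ℂ := τ.toAlgebra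
  have : IsScalarTower ℚ K L := IsScalarTower.of_algebraMap_eq' (Subsingleton.elim _ _)
  have : Algebra.IsAlgebraic K L := Algebra.IsAlgebraic.tower_top (K := ℚ) K
  exact ⟨(IsAlgClosed.lift (R := K) (S := L) (M := ℂ)).toRingHom, fun x =>
    AlgHom.commutes (IsAlgClosed.lift (R := K) (S := L) (M := ℂ)) x⟩

variable {F : IntermediateField ℚ ℂ} {T : Data}

/-- a ring homomorphism as an embedding -/
noncomputable def toE (σ : F →+* ℂ) : F →ₐ[ℚ] ℂ := σ.toRatAlgHom

/-- the period relation from one period -/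
theorem periodIs_of {X : T.Var} {m : ℕ} {t : T.B X m →ₗ[ℚ] F} {σ : F →ₐ[ℚ] ℂ}
    (hF : FiniteDimensional ℚ F) {x : ℂ}
    (h : ∀ c : ℂ, c ≠ 0 → c • eig t σ ∈ T.dR X m → Sim c x) : T.PeriodIs t σ x := by
  rintro ω hω ⟨c, hc, rfl⟩ γ hγ
  obtain ⟨a, ha, ha', ha''⟩ := h c hc hω
  have h1 : σ (t γ) ≠ 0 := by
    rw [Ne, map_eq_zero]
    exact hγ
  refine ⟨a * σ (t γ), mul_ne_zero ha h1, ha'.mul (alg_coe hF σ _), ?_⟩
  show c * σ (t γ) = a * σ (t γ) * x
  rw [ha'']
  ring

theorem of_periodIs {X : T.Var} {m : ℕ} {t : T.B X m →ₗ[ℚ] F} {σ : F →ₐ[ℚ] ℂ}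
    (hF : FiniteDimensional ℚ F) {x : ℂ} (ht : Function.Surjective t)
    (h : T.PeriodIs t σ x) {c : ℂ} (hc : c ≠ 0) (hc' : c • eig t σ ∈ T.dR X m) : Sim c x := by
  obtain ⟨γ, hγ⟩ := ht 1
  obtain ⟨a, ha, ha', ha''⟩ := h _ hc' ⟨c, hc, rfl⟩ γ (by rw [hγ]; exact one_ne_zero)
  refine ⟨a, ha, ha', ?_⟩
  have h1 : (c • eig t σ) γ = c * σ (t γ) := rfl
  rw [h1, hγ, map_one, mul_one] at ha''
  exact ha''

/-- the embeddings of an abelian field -/
theorem exists_gal (hF : IsAbelian F) (τ τ' : F →ₐ[ℚ] ℂ) : ∃ g : F ≃ₐ[ℚ] F, ∀ x, τ (g x) = τ' x := by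
  have hab := abelianGalois hF
  have hfd := finiteDim hF
  have h1 : ∀ x : F, ∃ y : F, τ y = τ' x := by
    intro x
    have hn : Normal ℚ F := inferInstance
    have h2 := hn.splits x
    have h3 : (Polynomial.aeval (τ' x)) (minpoly ℚ x) = 0 := by
      rw [Polynomial.aeval_algHom_apply, minpoly.aeval, map_zero]
    have h4 : τ' x ∈ (minpoly ℚ x).rootSet ℂ := by
      rw [Polynomial.mem_rootSet]
      exact ⟨minpoly.ne_zero (Algebra.IsIntegral.isIntegral x), h3⟩
    rw [← h2.image_rootSet τ] at h4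
    obtain ⟨y, -, hy⟩ := h4
    exact ⟨y, hy⟩
  choose f hf using h1
  have hinj : Function.Injective τ := τ.injective
  let φ : F →ₐ[ℚ] F :=
    { toFun := f
      map_one' := hinj (by rw [hf, map_one, map_one])
      map_mul' := fun x y => hinj (by rw [hf, map_mul, map_mul, hf, hf])
      map_zero' := hinj (by rw [hf, map_zero, map_zero])
      map_add' := fun x y => hinj (by rw [hf, map_add, map_add, hf, hf])
      commutes' := fun r => hinj (by rw [hf, AlgHom.commutes, AlgHom.commutes]) }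
  have hbij : Function.Bijective φ := Algebra.IsAlgebraic.algHom_bijective φ
  exact ⟨AlgEquiv.ofBijective φ hbij, hf⟩

theorem imaginary_fixedF (hF : IsAbelian F) (N : Subgroup (F ≃ₐ[ℚ] F)) {κ : F ≃ₐ[ℚ] F}
    (hκ : ∀ x : F, (κ x : ℂ) = (starRingEnd ℂ) (x : ℂ)) (hN : κ ∉ N) : IsImaginary (fixedF N) := by
  have hab := abelianGalois hF
  have hfd := finiteDim hF
  by_contra hre
  apply hN
  rw [← IntermediateField.fixingSubgroup_fixedField N, IntermediateField.mem_fixingSubgroup_iff]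
  intro x hx
  have h1 : (x : ℂ) ∈ fixedF N := (mem_fixedF N x).2 fun s hs => hx ⟨s, hs⟩
  apply Subtype.ext
  rw [hκ]
  by_contra hne
  exact hre ⟨x, h1, hne⟩

/-- **The reduction to imaginary cyclic fields.** -/
theorem key (hT : T.IsTheory) (hF : IsAbelian F)
    (hH : ∀ F' : IntermediateField ℚ ℂ, F' ≤ F → IsImaginary F' → IsCyclic (F' ≃+* F') →
      T.HodgeLines F')
    {X : T.Var} {m q : ℕ} {t : T.B X m →ₗ[ℚ] F} (ht : Function.Surjective t)
    {c : (F →ₐ[ℚ] ℂ) → ℂ} (h : Pre t (fun _ => q) c) (hc : ∀ σ, c σ ≠ 0) (σ : F →ₐ[ℚ] ℂ) :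
    Sim (c σ) ((2 * Real.pi * Complex.I) ^ q) := by
  classical
  have hab := abelianGalois hF
  have hfd := finiteDim hF
  have hcomm : ∀ a b : F ≃ₐ[ℚ] F, a * b = b * a := fun a b => mul_comm' a b
  have hpi : ∀ k : ℕ, (2 * Real.pi * Complex.I : ℂ) ^ k ≠ 0 := fun k => pow_ne_zero k two_pi_I_ne
  have hm : q + q = m := type_conj hT ht h.hodge σ
  -- complex conjugation as an automorphism
  obtain ⟨κ, hκ⟩ := exists_gal hF F.val (conjE F.val)
  have hκ' : ∀ x : F, (κ x : ℂ) = (starRingEnd ℂ) (x : ℂ) := hκ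
  let u : (F ≃ₐ[ℚ] F) → ℂ :=
    fun g => c (AlgHom.comp F.val (g : F →ₐ[ℚ] F)) / (2 * Real.pi * Complex.I) ^ q
  have hu : ∀ g, u g ≠ 0 := fun g => div_ne_zero (hc _) (hpi _)
  have hodd : ∀ g, IsAlgebraic ℚ (u g * u (g * κ)) := by
    intro g
    have h1 : conjE (AlgHom.comp F.val (g : F →ₐ[ℚ] F)) =
        AlgHom.comp F.val ((g * κ : F ≃ₐ[ℚ] F) : F →ₐ[ℚ] F) := by
      refine AlgHom.ext fun x => ?_
      rw [hcomm g κ]
      show (starRingEnd ℂ) ((g x : F) : ℂ) = ((κ (g x) : F) : ℂ)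
      rw [hκ']
    have h2 := pol_alg hT hfd ht h (AlgHom.comp F.val (g : F →ₐ[ℚ] F))
    rw [h1, ← hm, pow_add] at h2
    rw [show u g * u (g * κ) = _ from div_mul_div_comm _ _ _ _]
    exact h2
  have hall : ∀ g, IsAlgebraic ℚ (u g) := by
    apply algebraic_of_cosets' hcomm u hu
    intro N hn hN g
    by_cases hκN : κ ∈ N
    · -- pairs of conjugate lines
      have h1 : IsAlgebraic ℚ ((∏ n : N, u (g * n)) ^ 2) := by
        have h2 : ∏ n : N, u (g * n) = ∏ n : N, u (g * n * κ) := by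
          rw [← Equiv.prod_comp (Equiv.mulRight (⟨κ, hκN⟩ : N))]
          refine Finset.prod_congr rfl fun n _ => ?_
          rw [Equiv.coe_mulRight, Subgroup.coe_mul, mul_assoc]
        rw [sq]
        nth_rewrite 2 [h2]
        rw [← Finset.prod_mul_distrib]
        induction (Finset.univ : Finset N) using Finset.induction_on with
        | empty => simpa using isAlgebraic_one
        | insert a s has ih =>
          rw [Finset.prod_insert has]
          exact (hodd _).mul ih
      exact IsAlgebraic.of_pow two_pos h1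
    · -- the fixed field
      have him := imaginary_fixedF hF N hκ' hκN
      have hcyc := cyc_fixedF hF N hn hN
      have hHN := hH _ (fixedF_le N) him hcyc
      let NF : Finset (F ≃ₐ[ℚ] F) := Finset.univ.filter fun s => s ∈ N
      have hNF : ∀ s, s ∈ NF ↔ s ∈ N := fun s => by simp [NF]
      have hNF1 : NF.Nonempty := ⟨1, (hNF 1).2 N.one_mem⟩
      have hL : NF.toList ≠ [] := by
        rw [Ne, Finset.toList_eq_nil]
        exact hNF1.ne_empty
      obtain ⟨Y, M, t', ht', h'⟩ := exists_list hT ht h NF.toList hL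
      have h1 : Pre t' (fun _ => NF.card * q)
          (fun τ => ∏ s ∈ NF, c (τ.comp (s : F →ₐ[ℚ] F))) := by
        constructor
        · intro τ
          have h2 := h'.hodge τ
          rw [List.map_const', List.sum_replicate, Finset.length_toList, smul_eq_mul] at h2
          exact h2
        · intro τ
          have h2 := h'.dR τ
          rw [Finset.prod_map_toList] at h2
          exact h2
      obtain ⟨t'', ht'', h''⟩ := exists_trace ht' h1 (fixedF_le N) NF hNF1
        (fun s hs x hx => (mem_fixedF N x).1 hx s ((hNF s).1 hs))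
        (by
          intro x
          rw [mem_fixedF]
          intro r hr
          rw [map_sum]
          refine Finset.sum_bij (fun s _ => r * s) ?_ ?_ ?_ ?_
          · intro s hs
            rw [hNF] at hs ⊢
            exact N.mul_mem hr hs
          · intro s _ s' _ hss
            exact mul_left_cancel hss
          · intro s hs
            rw [hNF] at hs
            exact ⟨r⁻¹ * s, (hNF _).2 (N.mul_mem (N.inv_mem hr) hs), mul_inv_cancel_left r s⟩
          · intro s _
            rfl)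
        (by
          intro τ s hs
          rw [hNF] at hs
          refine Finset.prod_bij (fun n _ => s * n) ?_ ?_ ?_ ?_
          · intro n hn
            rw [hNF] at hn ⊢
            exact N.mul_mem hs hn
          · intro n _ n' _ hss
            exact mul_left_cancel hss
          · intro n hn
            rw [hNF] at hn
            exact ⟨s⁻¹ * n, (hNF _).2 (N.mul_mem (N.inv_mem hs) hn), mul_inv_cancel_left s n⟩
          · intro n _
            rfl)
      have hne : ∀ τ : F →ₐ[ℚ] ℂ, ∏ s ∈ NF, c (τ.comp (s : F →ₐ[ℚ] F)) ≠ 0 :=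
        fun τ => Finset.prod_ne_zero_iff.2 fun n _ => hc _
      have hext : ∀ τ : fixedF N →ₐ[ℚ] ℂ, ∃ σ : F →ₐ[ℚ] ℂ,
          ∀ x : fixedF N, σ ⟨x, fixedF_le N x.2⟩ = τ x := by
        intro τ
        obtain ⟨σ, hσ⟩ := ext_emb (inferInstance : Algebra.IsAlgebraic ℚ F)
          (IntermediateField.inclusion (fixedF_le N)).toRingHom τ.toRingHom
        exact ⟨toE σ, hσ⟩
      have hline : T.IsLine t'' (fun _ => NF.card * q) := by
        refine ⟨ht'', ?_, ?_⟩
        · intro τ
          obtain ⟨σ, hσ⟩ := hext τ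
          exact (h'' τ σ hσ).1
        · intro τ
          obtain ⟨σ, hσ⟩ := hext τ
          exact ⟨_, hne σ, (h'' τ σ hσ).2⟩
      let σ : F →ₐ[ℚ] ℂ := AlgHom.comp F.val (g : F →ₐ[ℚ] F)
      let τ : fixedF N →ₐ[ℚ] ℂ :=
        (RingHom.comp σ.toRingHom (IntermediateField.inclusion (fixedF_le N)).toRingHom).toRatAlgHom
      have h3 := hHN _ _ _ t'' hline τ
      have h4 := (h'' τ σ fun _ => rfl).2
      have h5 := of_periodIs (finiteDim (isAbelian_mono (fixedF_le N) hF)) ht'' h3 (hne σ) h4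
      have h6 := alg_of_sim (hpi _) h5
      have h7 : ∏ n : N, u (g * n) = (∏ s ∈ NF, c (σ.comp (s : F →ₐ[ℚ] F))) /
          (2 * Real.pi * Complex.I) ^ (NF.card * q) := by
        have h8 : ∏ n : N, u (g * n) = ∏ s ∈ NF, u (g * s) :=
          (Finset.prod_subtype NF hNF (fun s => u (g * s))).symm
        rw [h8]
        show ∏ s ∈ NF, (c (AlgHom.comp F.val ((g * s : F ≃ₐ[ℚ] F) : F →ₐ[ℚ] F)) /
          (2 * Real.pi * Complex.I) ^ q) = _
        rw [Finset.prod_div_distrib, Finset.prod_const, ← pow_mul, mul_comm q]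
        rfl
      rw [h7]
      exact h6
  obtain ⟨g, hg⟩ := exists_gal hF F.val σ
  have h1 := hall g
  have h2 : AlgHom.comp F.val (g : F →ₐ[ℚ] F) = σ := AlgHom.ext hg
  have h3 : u g = c σ / (2 * Real.pi * Complex.I) ^ q := by
    show c (AlgHom.comp F.val (g : F →ₐ[ℚ] F)) / _ = _
    rw [h2]
  rw [h3] at h1
  exact sim_of_alg (hc σ) (hpi q) h1

end Pool.Agent.Hx88.GD
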