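import Pool.Agent.Hx88.GD.Fld

/-!
# Products, twists and traces of lines (helper88)
-/

set_option autoImplicit false
set_option linter.unusedSectionVars false

namespace Pool.Agent.Hx88.GD

open Module TensorProduct

section linear

variable {B B' : Type} [AddCommGroup B] [Module ℚ B] [AddCommGroup B'] [Module ℚ B']

theorem ext_tmul (ω : B →ₗ[ℚ] ℂ) (η : B' →ₗ[ℚ] ℂ) (x : B) (y : B') :
    ext ω η (x ⊗ₜ[ℚ] y) = ω x * η y := rfl

theorem ext_smul (ω : B →ₗ[ℚ] ℂ) (η : B' →ₗ[ℚ] ℂ) (a b : ℂ) :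
    ext (a • ω) (b • η) = (a * b) • ext ω η := by
  apply TensorProduct.ext'
  intro x y
  show (a • ω) x * (b • η) y = (a * b) * (ω x * η y)
  rw [LinearMap.smul_apply, LinearMap.smul_apply, smul_eq_mul, smul_eq_mul]
  ring

end linear

variable {F : IntermediateField ℚ ℂ} {T : Data}

/-- an auxiliary form of the conditions, with given periods -/
structure Pre {X : T.Var} {m : ℕ} (t : T.B X m →ₗ[ℚ] F) (p : (F →ₐ[ℚ] ℂ) → ℕ)
    (c : (F →ₐ[ℚ] ℂ) → ℂ) : Prop where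
  hodge : ∀ σ, eig t σ ∈ T.hodge X m (p σ)
  dR : ∀ σ, c σ • eig t σ ∈ T.dR X m

/-- the product of two maps to `F` -/
noncomputable def mulL {X Y : T.Var} {m n : ℕ} (t : T.B X m →ₗ[ℚ] F) (t' : T.B Y n →ₗ[ℚ] F) :
    T.B (T.prod X Y) (m + n) →ₗ[ℚ] F :=
  (LinearMap.mul' ℚ F).comp ((TensorProduct.map t t').comp (T.kun X Y m n))

theorem eig_mulL {X Y : T.Var} {m n : ℕ} (t : T.B X m →ₗ[ℚ] F) (t' : T.B Y n →ₗ[ℚ] F)
    (σ : F →ₐ[ℚ] ℂ) : eig (mulL t t') σ = (ext (eig t σ) (eig t' σ)).comp (T.kun X Y m n) := by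
  have h1 : σ.toLinearMap.comp ((LinearMap.mul' ℚ F).comp (TensorProduct.map t t')) =
      ext (eig t σ) (eig t' σ) := by
    apply TensorProduct.ext'
    intro x y
    show σ (t x * t' y) = σ (t x) * σ (t' y)
    rw [map_mul]
  rw [← h1]
  rfl

theorem pre_mul (hT : T.IsTheory) {X Y : T.Var} {m n : ℕ} {t : T.B X m →ₗ[ℚ] F}
    {t' : T.B Y n →ₗ[ℚ] F} {p p' : (F →ₐ[ℚ] ℂ) → ℕ} {c c' : (F →ₐ[ℚ] ℂ) → ℂ} (h : Pre t p c)
    (h' : Pre t' p' c') : Pre (mulL t t') (fun σ => p σ + p' σ) (fun σ => c σ * c' σ) := by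
  constructor
  · intro σ
    rw [eig_mulL]
    exact hT.kun_hodge _ _ _ _ _ _ _ _ (h.hodge σ) (h'.hodge σ)
  · intro σ
    have h1 : (ext (c σ • eig t σ) (c' σ • eig t' σ)).comp (T.kun X Y m n) ∈
        T.dR (T.prod X Y) (m + n) := hT.kun_dR _ _ _ _ _ _ (h.dR σ) (h'.dR σ)
    rw [ext_smul] at h1
    rw [eig_mulL]
    exact h1

theorem surj_mul (hT : T.IsTheory) {X Y : T.Var} {m n : ℕ} {t : T.B X m →ₗ[ℚ] F}
    {t' : T.B Y n →ₗ[ℚ] F} (ht : ∃ γ, t γ ≠ 0) (ht' : Function.Surjective t') :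
    Function.Surjective (mulL t t') := by
  intro f
  obtain ⟨γ, hγ⟩ := ht
  obtain ⟨γ', hγ'⟩ := ht' ((t γ)⁻¹ * f)
  obtain ⟨u, hu⟩ := hT.kun_surj X Y m n (γ ⊗ₜ[ℚ] γ')
  refine ⟨u, ?_⟩
  show LinearMap.mul' ℚ F (TensorProduct.map t t' (T.kun X Y m n u)) = f
  rw [hu, TensorProduct.map_tmul, LinearMap.mul'_apply, hγ', mul_inv_cancel_left₀ hγ]

theorem pre_twist {X : T.Var} {m : ℕ} {t : T.B X m →ₗ[ℚ] F} {p : (F →ₐ[ℚ] ℂ) → ℕ}
    {c : (F →ₐ[ℚ] ℂ) → ℂ} (h : Pre t p c) (s : F ≃ₐ[ℚ] F) :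
    Pre (s.toLinearMap.comp t) (fun σ => p (σ.comp (s : F →ₐ[ℚ] F)))
      (fun σ => c (σ.comp (s : F →ₐ[ℚ] F))) :=
  ⟨fun σ => h.hodge (σ.comp (s : F →ₐ[ℚ] F)), fun σ => h.dR (σ.comp (s : F →ₐ[ℚ] F))⟩

/-- the product of the twists of a line by a list of automorphisms -/
theorem exists_list (hT : T.IsTheory) {X : T.Var} {m : ℕ} {t : T.B X m →ₗ[ℚ] F}
    (ht : Function.Surjective t) {p : (F →ₐ[ℚ] ℂ) → ℕ}
    {c : (F →ₐ[ℚ] ℂ) → ℂ} (h : Pre t p c) (L : List (F ≃ₐ[ℚ] F)) (hL : L ≠ []) :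
    ∃ (Y : T.Var) (M : ℕ) (t' : T.B Y M →ₗ[ℚ] F), Function.Surjective t' ∧
      Pre t' (fun σ => (L.map fun s : F ≃ₐ[ℚ] F => p (σ.comp (s : F →ₐ[ℚ] F))).sum)
        (fun σ => (L.map fun s : F ≃ₐ[ℚ] F => c (σ.comp (s : F →ₐ[ℚ] F))).prod) := by
  induction L with
  | nil => exact absurd rfl hL
  | cons s L ih =>
    rcases eq_or_ne L [] with rfl | hL'
    · refine ⟨X, m, s.toLinearMap.comp t, s.surjective.comp ht, ?_⟩
      simpa using pre_twist h s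
    · obtain ⟨Y, M, t', ht', h'⟩ := ih hL'
      refine ⟨T.prod X Y, m + M, mulL (s.toLinearMap.comp t) t', ?_, ?_⟩
      · refine surj_mul hT ?_ ht'
        obtain ⟨γ, hγ⟩ := ht 1
        refine ⟨γ, ?_⟩
        show s (t γ) ≠ 0
        rw [hγ, map_one]
        exact one_ne_zero
      · have h1 := pre_mul hT (pre_twist h s) h'
        simpa using h1

/-- the trace to the fixed field of a subgroup -/
theorem exists_trace {X : T.Var} {m : ℕ} {t : T.B X m →ₗ[ℚ] F}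
    (ht : Function.Surjective t) {q : ℕ} {c : (F →ₐ[ℚ] ℂ) → ℂ} (h : Pre t (fun _ => q) c)
    {F' : IntermediateField ℚ ℂ} (hF' : F' ≤ F) (N : Finset (F ≃ₐ[ℚ] F)) (hN : N.Nonempty)
    (hN1 : ∀ s ∈ N, ∀ x : F, (x : ℂ) ∈ F' → s x = x)
    (hN2 : ∀ x : F, ((∑ s ∈ N, s x : F) : ℂ) ∈ F')
    (hc : ∀ σ : F →ₐ[ℚ] ℂ, ∀ s ∈ N, c (σ.comp (s : F →ₐ[ℚ] F)) = c σ) :
    ∃ t' : T.B X m →ₗ[ℚ] F', Function.Surjective t' ∧
      ∀ (τ : F' →ₐ[ℚ] ℂ) (σ : F →ₐ[ℚ] ℂ), (∀ x : F', σ ⟨x, hF' x.2⟩ = τ x) →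
        eig t' τ ∈ T.hodge X m q ∧ c σ • eig t' τ ∈ T.dR X m := by
  classical
  let tr : F →ₗ[ℚ] F' :=
    { toFun := fun x => ⟨((∑ s ∈ N, s x : F) : ℂ), hN2 x⟩
      map_add' := by
        intro x y
        apply Subtype.ext
        show ((∑ s ∈ N, s (x + y) : F) : ℂ) = ((∑ s ∈ N, s x : F) : ℂ) + ((∑ s ∈ N, s y : F) : ℂ)
        simp only [map_add, Finset.sum_add_distrib]
        rfl
      map_smul' := by
        intro r x
        apply Subtype.ext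
        have h1 : (∑ s ∈ N, s (r • x) : F) = r • ∑ s ∈ N, s x := by
          rw [Finset.smul_sum]
          exact Finset.sum_congr rfl fun s _ => s.toLinearMap.map_smul r x
        show ((∑ s ∈ N, s (r • x) : F) : ℂ) = r • ((∑ s ∈ N, s x : F) : ℂ)
        rw [h1]
        rfl }
  have hcard : (N.card : F) ≠ 0 := by
    rw [Nat.cast_ne_zero]
    exact (Finset.card_pos.2 hN).ne'
  refine ⟨tr.comp t, ?_, ?_⟩
  · intro y
    obtain ⟨γ, hγ⟩ := ht ((N.card : F)⁻¹ * ⟨y, hF' y.2⟩)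
    refine ⟨γ, ?_⟩
    apply Subtype.ext
    show ((∑ s ∈ N, s (t γ) : F) : ℂ) = y
    have h1 : ∑ s ∈ N, s (t γ) = ⟨y, hF' y.2⟩ := by
      rw [hγ]
      have h2 : ∀ s ∈ N, s ((N.card : F)⁻¹ * ⟨y, hF' y.2⟩) = (N.card : F)⁻¹ * ⟨y, hF' y.2⟩ := by
        intro s hs
        rw [map_mul, map_inv₀, map_natCast, hN1 s hs ⟨y, hF' y.2⟩ y.2]
      rw [Finset.sum_congr rfl h2, Finset.sum_const, nsmul_eq_mul, mul_inv_cancel_left₀ hcard]
    rw [h1]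
  · intro τ σ hσ
    have h1 : eig (tr.comp t) τ = ∑ s ∈ N, eig t (σ.comp (s : F →ₐ[ℚ] F)) := by
      refine LinearMap.ext fun γ => ?_
      rw [LinearMap.sum_apply]
      show τ (tr (t γ)) = ∑ s ∈ N, σ (s (t γ))
      rw [← hσ (tr (t γ)), ← map_sum]
      rfl
    rw [h1]
    constructor
    · exact Submodule.sum_mem _ fun s _ => h.hodge _
    · rw [Finset.smul_sum]
      refine Submodule.sum_mem _ fun s hs => ?_
      rw [← hc σ s hs]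
      exact h.dR _

theorem eig_ne {X : T.Var} {m : ℕ} {t : T.B X m →ₗ[ℚ] F} (ht : Function.Surjective t)
    (σ : F →ₐ[ℚ] ℂ) : eig t σ ≠ 0 := by
  intro h0
  obtain ⟨γ, hγ⟩ := ht 1
  have h1 : eig t σ γ = σ (t γ) := rfl
  rw [h0, hγ, map_one] at h1
  exact zero_ne_one h1

theorem conj_eig {X : T.Var} {m : ℕ} (t : T.B X m →ₗ[ℚ] F) (σ : F →ₐ[ℚ] ℂ) :
    conj (eig t σ) = eig t (conjE σ) := rfl

/-- the types of the conjugate lines -/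
theorem type_conj (hT : T.IsTheory) {X : T.Var} {m : ℕ} {t : T.B X m →ₗ[ℚ] F}
    (ht : Function.Surjective t) {p : (F →ₐ[ℚ] ℂ) → ℕ} (h : ∀ σ, eig t σ ∈ T.hodge X m (p σ))
    (σ : F →ₐ[ℚ] ℂ) : p σ + p (conjE σ) = m := by
  have h1 := hT.hodge_conj _ _ _ _ (h σ)
  rw [conj_eig] at h1
  have h2 := h (conjE σ)
  have h3 : p σ ≤ m := by
    by_contra hlt
    exact eig_ne ht σ (hT.hodge_le _ _ _ _ (h σ) (by omega))
  have h4 : m - p σ = p (conjE σ) := by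
    by_contra hne
    exact eig_ne ht (conjE σ) (hT.hodge_disjoint _ _ _ _ _ h1 h2 hne)
  omega

theorem alg_coe (hF : FiniteDimensional ℚ F) (σ : F →ₐ[ℚ] ℂ) (x : F) : IsAlgebraic ℚ (σ x) :=
  (Algebra.IsAlgebraic.isAlgebraic (R := ℚ) x).algHom σ

/-- **The periods of conjugate lines.** -/
theorem pol_alg (hT : T.IsTheory) (hF : FiniteDimensional ℚ F) {X : T.Var} {m : ℕ}
    {t : T.B X m →ₗ[ℚ] F} (ht : Function.Surjective t) {p : (F →ₐ[ℚ] ℂ) → ℕ}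
    {c : (F →ₐ[ℚ] ℂ) → ℂ} (h : Pre t p c) (σ : F →ₐ[ℚ] ℂ) :
    IsAlgebraic ℚ (c σ * c (conjE σ) / (2 * Real.pi * Complex.I) ^ m) := by
  obtain ⟨Θ, ⟨h1, h2⟩⟩ := hT.pol X m
  obtain ⟨a, ha, ha'⟩ := h1 _ _ (h.dR σ) (h.dR (conjE σ))
  have h3 := h2 _ _ (h.hodge σ) (eig_ne ht σ)
  rw [conj_eig] at h3
  rw [ext_smul, LinearMap.smul_apply, smul_eq_mul] at ha'
  have h4 : ∀ Θ : T.B X m ⊗[ℚ] T.B X m, IsAlgebraic ℚ (ext (eig t σ) (eig t (conjE σ)) Θ) := by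
    intro Θ
    induction Θ using TensorProduct.induction_on with
    | zero => rw [map_zero]; exact isAlgebraic_zero
    | tmul x y =>
      rw [ext_tmul]
      exact (alg_coe hF σ _).mul (alg_coe hF (conjE σ) _)
    | add x y hx hy => rw [map_add]; exact hx.add hy
  have hpi : (2 * Real.pi * Complex.I) ^ m ≠ 0 := by
    apply pow_ne_zero
    simp [Real.pi_ne_zero]
  have h5 : c σ * c (conjE σ) / (2 * Real.pi * Complex.I) ^ m =
      a * (ext (eig t σ) (eig t (conjE σ)) Θ)⁻¹ := by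
    rw [div_eq_iff hpi, mul_right_comm, ← ha', mul_assoc, mul_inv_cancel₀ h3, mul_one]
  rw [h5]
  exact ha.mul (h4 Θ).inv

end Pool.Agent.Hx88.GD
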