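import Pool.Agent.Hx88.GD.Fermat

/-!
# The conjecture of Gross and Deligne for a field and for its imaginary cyclic subfields (helper88)
-/

set_option autoImplicit false
set_option linter.unusedSectionVars false

namespace Pool.Agent.Hx88.GD

open Module TensorProduct

variable {F : IntermediateField ℚ ℂ} {T : Data}

theorem sim_div {a b x y : ℂ} (h : Sim (a * b) (x * y)) (h' : Sim b y) (hy : y ≠ 0) : Sim a x := by
  obtain ⟨u, hu, hu', e⟩ := h
  obtain ⟨v, hv, hv', rfl⟩ := h'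
  refine ⟨u * v⁻¹, mul_ne_zero hu (inv_ne_zero hv), hu'.mul hv'.inv, ?_⟩
  have h1 : (a * v) * y = (u * x) * y := by
    rw [mul_assoc, e]
    ring
  have h2 := mul_right_cancel₀ hy h1
  field_simp
  rw [h2]

theorem sim_trans {x y z : ℂ} (h : Sim x y) (h' : Sim y z) : Sim x z := by
  obtain ⟨u, hu, hu', rfl⟩ := h
  obtain ⟨v, hv, hv', rfl⟩ := h'
  exact ⟨u * v, mul_ne_zero hu hv, hu'.mul hv', by ring⟩

theorem sim_symm {x y : ℂ} (h : Sim x y) : Sim y x := by
  obtain ⟨u, hu, hu', rfl⟩ := h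
  exact ⟨u⁻¹, inv_ne_zero hu, hu'.inv, by field_simp⟩

theorem sim_mul_right {x y : ℂ} (h : Sim x y) (z : ℂ) : Sim (x * z) (y * z) := by
  obtain ⟨u, hu, hu', rfl⟩ := h
  exact ⟨u, hu, hu', by ring⟩

/-- **From the imaginary cyclic subfields to the field.** -/
theorem gd_of_cyclic (hT : T.IsTheory) (hF : IsAbelian F) (him : IsImaginary F)
    (hH : ∀ F' : IntermediateField ℚ ℂ, F' ≤ F → IsImaginary F' → IsCyclic (F' ≃+* F') →
      T.HodgeLines F') : T.GrossDeligne F := by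
  classical
  have hfd := finiteDim hF
  have hcond := three_le_cond hF him
  intro X m t p hline ε hε lam σ hσ
  have hp : ∀ τ, p τ + p (conjE τ) = m := type_conj hT hline.surj hline.hodge
  -- the dual line
  obtain ⟨A, t', hline', hgd'⟩ := hT.cm F hF him (m + 2) (by omega) (fun τ => m + 1 - p τ) (by
    intro τ
    have := hp τ
    omega)
  have hε' : IsEps (cond F) (fun τ => m + 1 - p τ) (dl (cond F) (m + 1) - ε) := by
    intro mu τ hτ
    have h1 := hε mu τ hτ
    have h2 := dl_sum (d := cond F) (by omega) (m + 1) mu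
    have h3 : p τ ≤ m + 1 := by have := hp τ; omega
    simp_rw [Pi.sub_apply, sub_mul]
    rw [Finset.sum_sub_distrib, h2, ← h1, Nat.cast_sub h3]
    ring
  have h1 := hgd' _ hε' lam σ hσ
  apply periodIs_of hfd
  intro c₀ hc₀ hc₀'
  choose c hc hc' using hline.dR
  choose c' hc1 hc1' using hline'.dR
  -- the periods, with the given one at `σ`
  let b : (F →ₐ[ℚ] ℂ) → ℂ := fun τ => if τ = σ then c₀ else c τ
  have hb : ∀ τ, b τ ≠ 0 := by
    intro τ
    show (if τ = σ then c₀ else c τ) ≠ 0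
    split_ifs
    exacts [hc₀, hc τ]
  have hb' : ∀ τ, b τ • eig t τ ∈ T.dR X m := by
    intro τ
    show (if τ = σ then c₀ else c τ) • eig t τ ∈ T.dR X m
    split_ifs with h
    · rw [h]
      exact hc₀'
    · exact hc' τ
  have hpre : Pre (mulL t t') (fun _ => m + 1) (fun τ => b τ * c' τ) := by
    have h2 := pre_mul hT (p := p) (p' := fun τ => m + 1 - p τ) ⟨hline.hodge, hb'⟩
      ⟨hline'.hodge, hc1'⟩
    refine ⟨fun τ => ?_, h2.dR⟩
    have h3 := h2.hodge τ
    have h4 : p τ + (m + 1 - p τ) = m + 1 := by have := hp τ; omega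
    rw [h4] at h3
    exact h3
  have hne : ∃ γ, t γ ≠ 0 := by
    obtain ⟨γ, hγ⟩ := hline.surj 1
    exact ⟨γ, by rw [hγ]; exact one_ne_zero⟩
  have h2 := key hT hF hH (surj_mul hT hne hline'.surj) hpre (fun τ => mul_ne_zero (hb τ) (hc1 τ)) σ
  have h3 : b σ = c₀ := if_pos rfl
  rw [h3] at h2
  have h4 := of_periodIs hfd hline'.surj h1 (hc1 σ) (hc1' σ)
  have h5 : gammaProd (cond F) ε lam * gammaProd (cond F) (dl (cond F) (m + 1) - ε) lam =
      gammaProd (cond F) (dl (cond F) (m + 1)) lam := by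
    rw [← gammaProd_add]
    congr 1
    funext a
    rw [Pi.add_apply, Pi.sub_apply]
    ring
  have h6 := sim_gammaProd_dl (d := cond F) (by omega) (m + 1) lam
  rw [← h5] at h6
  push_cast at h6
  exact sim_div (sim_trans h2 (sim_symm h6)) h4 (by exact_mod_cast (gammaProd_pos _ _ _).ne')

/-- **From the field to its imaginary subfields.** -/
theorem hodge_of_gd (hT : T.IsTheory) (hF : IsAbelian F) (him : IsImaginary F)
    (hG : T.GrossDeligne F) {F' : IntermediateField ℚ ℂ} (hF' : F' ≤ F) : T.HodgeLines F' := by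
  classical
  have hfd := finiteDim hF
  have hfd' := finiteDim (isAbelian_mono hF' hF)
  have hcond := three_le_cond hF him
  obtain ⟨hd0, hFd⟩ := cond_spec hF
  have : NeZero (cond F) := ⟨hd0.ne'⟩
  intro X m q t' hline τ
  apply periodIs_of hfd'
  intro c₀ hc₀ hc₀'
  -- the restriction of embeddings
  let res : (F →ₐ[ℚ] ℂ) → (F' →ₐ[ℚ] ℂ) := fun σ =>
    (RingHom.comp σ.toRingHom (IntermediateField.inclusion hF').toRingHom).toRatAlgHom
  have hres : ∀ (σ : F →ₐ[ℚ] ℂ) (x : F'), res σ x = σ ⟨x, hF' x.2⟩ := fun _ _ => rfl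
  let incl : F' →ₗ[ℚ] F := ((IntermediateField.inclusion hF').toRingHom.toRatAlgHom).toLinearMap
  let s : T.B X m →ₗ[ℚ] F := incl.comp t'
  have hs : ∀ σ, eig s σ = eig t' (res σ) := fun _ => rfl
  choose c hc hc' using hline.dR
  let b : (F' →ₐ[ℚ] ℂ) → ℂ := fun ρ => if ρ = τ then c₀ else c ρ
  have hb' : ∀ ρ, b ρ • eig t' ρ ∈ T.dR X m := by
    intro ρ
    show (if ρ = τ then c₀ else c ρ) • eig t' ρ ∈ T.dR X m
    split_ifs with h
    · rw [h]
      exact hc₀'
    · exact hc' ρ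
  have hb : ∀ ρ, b ρ ≠ 0 := by
    intro ρ
    show (if ρ = τ then c₀ else c ρ) ≠ 0
    split_ifs
    exacts [hc₀, hc ρ]
  -- the auxiliary line
  obtain ⟨A, t₀, hline₀, hgd₀⟩ := hT.cm F hF him ((rset (cond F) F.val).card)
    (Finset.card_pos.2 ⟨1, mem_rset.2 (rel_one hd0 hFd)⟩) (p0 (cond F))
    (fun σ => p0_conj (by omega) hFd σ)
  choose c₁ hc1 hc1' using hline₀.dR
  have hpre : Pre (mulL s t₀) (fun σ => q + p0 (cond F) σ) (fun σ => b (res σ) * c₁ σ) :=
    pre_mul hT (p := fun _ => q) ⟨fun σ => hline.hodge (res σ), fun σ => hb' (res σ)⟩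
      ⟨hline₀.hodge, hc1'⟩
  have hne : ∃ γ, s γ ≠ 0 := by
    obtain ⟨γ, hγ⟩ := hline.surj 1
    refine ⟨γ, ?_⟩
    show incl (t' γ) ≠ 0
    rw [hγ]
    intro h0
    have h1 := congrArg (Subtype.val) h0
    exact one_ne_zero h1
  have hline₂ : T.IsLine (mulL s t₀) (fun σ => q + p0 (cond F) σ) :=
    ⟨surj_mul hT hne hline₀.surj, hpre.hodge, fun σ =>
      ⟨_, mul_ne_zero (hb (res σ)) (hc1 σ), hpre.dR σ⟩⟩
  have hε : IsEps (cond F) (fun σ : F →ₐ[ℚ] ℂ => q + p0 (cond F) σ)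
      (dl (cond F) q + e0 F (cond F)) := by
    intro mu ρ hρ
    have h1 := isEps_e0 (d := cond F) (by omega) hFd mu ρ hρ
    have h2 := dl_sum (d := cond F) (by omega) q mu
    simp_rw [Pi.add_apply, add_mul]
    rw [Finset.sum_add_distrib, h2, ← h1]
    push_cast
    ring
  -- an embedding which extends `τ`
  obtain ⟨σ₀, hσ₀⟩ := ext_emb (inferInstance : Algebra.IsAlgebraic ℚ F)
    (IntermediateField.inclusion hF').toRingHom τ.toRingHom
  let σ : F →ₐ[ℚ] ℂ := toE σ₀
  have hresσ : res σ = τ := AlgHom.ext hσ₀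
  obtain ⟨lam, hlam⟩ := exists_rel hd0 hFd σ
  have h1 := hG _ _ _ _ hline₂ _ hε lam σ hlam
  have h2 := of_periodIs hfd hline₂.surj h1 (mul_ne_zero (hb (res σ)) (hc1 σ)) (hpre.dR σ)
  have h3 := of_periodIs hfd hline₀.surj (hgd₀ _ (isEps_e0 (by omega) hFd) lam σ hlam) (hc1 σ)
    (hc1' σ)
  rw [gammaProd_add] at h2
  push_cast at h2
  have h4 := sim_div h2 h3 (by exact_mod_cast (gammaProd_pos _ _ _).ne')
  have h5 : b (res σ) = c₀ := if_pos hresσ
  rw [h5] at h4
  exact sim_trans h4 (sim_gammaProd_dl (by omega) q lam)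

end Pool.Agent.Hx88.GD
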