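import Pool.Agent.Hx88.GD.Main

/-!
# Real fields (helper88)
-/

set_option autoImplicit false
set_option linter.unusedSectionVars false

namespace Pool.Agent.Hx88.GD

open Module TensorProduct

variable {F : IntermediateField ℚ ℂ} {T : Data}

theorem holds_level {X : T.Var} {m : ℕ} {t : T.B X m →ₗ[ℚ] F} {p : (F →ₐ[ℚ] ℂ) → ℕ}
    (h : T.Holds t p) {d : ℕ} (hd : cond F = d) (ε : ZMod d → ℚ) (hε : IsEps d p ε)
    (lam : (ZMod d)ˣ) (σ : F →ₐ[ℚ] ℂ) (hσ : Rel d lam σ) : T.PeriodIs t σ (gammaProd d ε lam) := by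
  subst hd
  exact h ε hε lam σ hσ

theorem cond_cyc (hF : IsAbelian F) : cond (Cyc (cond F)) = cond F := by
  obtain ⟨h0, h1⟩ := cond_spec hF
  have hK : IsAbelian (Cyc (cond F)) := ⟨cond F, h0, le_rfl⟩
  obtain ⟨h2, h3⟩ := cond_spec hK
  apply le_antisymm
  · exact Nat.sInf_le ⟨h0, le_rfl⟩
  · exact Nat.sInf_le ⟨h2, h1.trans h3⟩

theorem imag_cyc {d : ℕ} (hd : 3 ≤ d) : IsImaginary (Cyc d) := by
  refine ⟨zeta d, IntermediateField.mem_adjoin_simple_self ℚ _, ?_⟩
  rw [conj_zeta (by omega)]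
  intro h
  have h0 : zeta d ≠ 0 := (zeta_prim (by omega)).ne_zero (by omega)
  have h1 : zeta d ^ 2 = 1 := by
    rw [sq]
    nth_rewrite 1 [← h]
    exact inv_mul_cancel₀ h0
  have h2 := (zeta_prim (d := d) (by omega)).dvd_of_pow_eq_one 2 h1
  exact absurd (Nat.le_of_dvd two_pos h2) (by omega)

theorem cond_ne_two (hF : IsAbelian F) : cond F ≠ 2 := by
  intro h
  obtain ⟨h0, h1⟩ := cond_spec hF
  rw [h] at h1
  have h2 : Cyc 2 ≤ Cyc 1 := by
    rw [Cyc, IntermediateField.adjoin_simple_le_iff]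
    have h3 : zeta 2 = -1 := by
      have h4 := (zeta_prim (d := 2) two_pos)
      exact h4.eq_neg_one_of_two_right
    rw [h3]
    exact neg_mem (one_mem _)
  have h3 : cond F ≤ 1 := Nat.sInf_le ⟨one_pos, h1.trans h2⟩
  omega

/-- **The conjecture holds for real fields.** -/
theorem gd_real (hT : T.IsTheory) (hF : IsAbelian F) (hre : ¬ IsImaginary F) :
    T.GrossDeligne F := by
  classical
  have hfd := finiteDim hF
  have hpi : ∀ k : ℕ, (2 * Real.pi * Complex.I : ℂ) ^ k ≠ 0 := fun k => pow_ne_zero k two_pi_I_ne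
  have hconj : ∀ τ : F →ₐ[ℚ] ℂ, conjE τ = τ := by
    intro τ
    obtain ⟨g, hg⟩ := exists_gal hF F.val τ
    refine AlgHom.ext fun x => ?_
    show (starRingEnd ℂ) (τ x) = τ x
    rw [← hg x]
    by_contra hne
    exact hre ⟨_, (g x).2, hne⟩
  intro X m t p hline ε hε lam σ hσ
  have hp : ∀ τ, p τ + p τ = m := by
    intro τ
    have h1 := type_conj hT hline.surj hline.hodge τ
    rwa [hconj] at h1
  have hpσ : ∀ τ, p τ = p σ := by
    intro τ
    have h1 := hp τ
    have h2 := hp σ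
    omega
  apply periodIs_of hfd
  intro c₀ hc₀ hc₀'
  choose c hc hc' using hline.dR
  let b : (F →ₐ[ℚ] ℂ) → ℂ := fun τ => if τ = σ then c₀ else c τ
  have hb' : ∀ τ, b τ • eig t τ ∈ T.dR X m := by
    intro τ
    show (if τ = σ then c₀ else c τ) • eig t τ ∈ T.dR X m
    split_ifs with h
    · rw [h]
      exact hc₀'
    · exact hc' τ
  have h1 := pol_alg hT hfd hline.surj (p := p) (c := b) ⟨hline.hodge, hb'⟩ σ
  have h2 : b σ = c₀ := if_pos rfl
  rw [hconj, h2, ← hp σ, pow_add, ← div_mul_div_comm, ← sq] at h1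
  have h3 : Sim c₀ ((2 * Real.pi * Complex.I) ^ p σ) :=
    sim_of_alg hc₀ (hpi _) (IsAlgebraic.of_pow two_pos h1)
  -- the product of gamma values
  obtain ⟨hd0, hFd⟩ := cond_spec hF
  have hne2 := cond_ne_two hF
  refine sim_trans h3 (sim_symm ?_)
  rcases Nat.lt_or_ge (cond F) 3 with hlt | hge
  · have h4 : cond F = 1 := by omega
    have h5 := hε lam σ hσ
    have h6 : Finset.Ioo 0 (cond F) = ∅ := by rw [h4]; rfl
    rw [h6, Finset.sum_empty] at h5
    have h7 : p σ = 0 := by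
      rcases mul_eq_zero.1 h5 with h | h
      · exact absurd (Nat.cast_eq_zero.1 h) hd0.ne'
      · exact Nat.cast_eq_zero.1 h
    rw [h7, gammaProd, h6, Finset.prod_empty, pow_zero]
    exact ⟨1, one_ne_zero, isAlgebraic_one, by simp⟩
  · have : NeZero (cond F) := ⟨hd0.ne'⟩
    have hK : IsAbelian (Cyc (cond F)) := ⟨cond F, hd0, le_rfl⟩
    have hKi := imag_cyc hge
    have hKf := finiteDim hK
    obtain ⟨A, t₀, hline₀, hgd₀⟩ := hT.cm (Cyc (cond F)) hK hKi
      ((rset (cond F) (Cyc (cond F)).val).card)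
      (Finset.card_pos.2 ⟨1, mem_rset.2 (rel_one hd0 le_rfl)⟩) (p0 (cond F))
      (fun τ => p0_conj (by omega) le_rfl τ)
    have hε₀ := isEps_e0 (F := Cyc (cond F)) (d := cond F) (by omega) le_rfl
    have hε₁ : IsEps (cond F) (p0 (F := Cyc (cond F)) (cond F))
        (e0 (Cyc (cond F)) (cond F) + (ε - dl (cond F) (p σ))) := by
      intro mu τ hτ
      rw [hε₀ mu τ hτ]
      let τ' : F →ₐ[ℚ] ℂ :=
        (RingHom.comp τ.toRingHom (IntermediateField.inclusion hFd).toRingHom).toRatAlgHom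
      have h4 : Rel (cond F) mu τ' := fun x P hP => hτ ⟨x, hFd x.2⟩ P hP
      have h5 := hε mu τ' h4
      rw [hpσ τ', ← dl_sum (by omega) (p σ) mu] at h5
      simp_rw [Pi.add_apply, Pi.sub_apply, add_mul, sub_mul]
      rw [Finset.sum_add_distrib, Finset.sum_sub_distrib, ← h5, sub_self, add_zero]
    let s : Cyc (cond F) →ₐ[ℚ] ℂ :=
      (RingHom.comp (Cyc (cond F)).val.toRingHom (aut hd0 lam).toRingEquiv.toRingHom).toRatAlgHom
    have hs : Rel (cond F) lam s := by
      rw [rel_iff hd0 le_rfl]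
      intro x
      rfl
    obtain ⟨c₁, hc1, hc1'⟩ := hline₀.dR s
    have h4 := of_periodIs hKf hline₀.surj
      (holds_level hgd₀ (cond_cyc hF) _ hε₀ lam s hs) hc1 hc1'
    have h5 := of_periodIs hKf hline₀.surj
      (holds_level hgd₀ (cond_cyc hF) _ hε₁ lam s hs) hc1 hc1'
    rw [gammaProd_add] at h5
    have h6 : gammaProd (cond F) (ε - dl (cond F) (p σ)) lam * gammaProd (cond F)
        (dl (cond F) (p σ)) lam = gammaProd (cond F) ε lam := by
      rw [← gammaProd_add, sub_add_cancel]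
    have h7 : Sim (gammaProd (cond F) (ε - dl (cond F) (p σ)) lam : ℝ) 1 := by
      have h8 := sim_trans (sim_symm h5) h4
      push_cast at h8
      rw [mul_comm, ← one_mul ((gammaProd (cond F) (e0 (Cyc (cond F)) (cond F)) lam : ℝ) : ℂ)] at h8
      obtain ⟨a, ha, ha', e⟩ := h8
      refine ⟨a, ha, ha', ?_⟩
      have hne : ((gammaProd (cond F) (e0 (Cyc (cond F)) (cond F)) lam : ℝ) : ℂ) ≠ 0 := by
        exact_mod_cast (gammaProd_pos _ _ _).ne'
      apply mul_right_cancel₀ hne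
      rw [one_mul] at e
      linear_combination e
    have h8 := sim_mul_right h7 (gammaProd (cond F) (dl (cond F) (p σ)) lam : ℝ)
    rw [one_mul, ← Complex.ofReal_mul, h6] at h8
    exact sim_trans h8 (sim_gammaProd_dl (by omega) (p σ) lam)

end Pool.Agent.Hx88.GD
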